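import Mathlib

/-!
# Counting in perfect matroid designs
-/

open Set

namespace Pool.Agent.H69.Pmd

set_option linter.unusedSectionVars false

variable {α : Type*} [Fintype α] {M : Matroid α}

open Classical in
/-- The flats `C` with `F ⊆ C ⊆ G` of rank one more than `F`. -/
noncomputable def covers (M : Matroid α) (F G : Set α) : Finset (Set α) :=
  Finset.univ.filter fun C => M.IsFlat C ∧ F ⊆ C ∧ C ⊆ G ∧ M.eRk C = M.eRk F + 1

theorem mem_covers {F G C : Set α} :
    C ∈ covers M F G ↔ M.IsFlat C ∧ F ⊆ C ∧ C ⊆ G ∧ M.eRk C = M.eRk F + 1 := by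
  simp [covers]

theorem eRk_lt_top (M : Matroid α) (X : Set α) : M.eRk X < ⊤ :=
  (M.eRk_le_encard X).trans_lt (Set.toFinite X).encard_lt_top

theorem isRkFinite (M : Matroid α) (X : Set α) : M.IsRkFinite X :=
  Matroid.eRk_lt_top_iff.1 (eRk_lt_top M X)

theorem flat_eq_of_subset {C D : Set α} (hC : M.IsFlat C) (hD : M.IsFlat D) (h : C ⊆ D)
    (hr : M.eRk D ≤ M.eRk C) : C = D := by
  have := (isRkFinite M C).closure_eq_closure_of_subset_of_eRk_ge_eRk h hr
  rwa [hC.closure, hD.closure] at this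

theorem eRk_closure_insert (hE : M.E = univ) {F : Set α} (hF : M.IsFlat F) {x : α} (hx : x ∉ F) :
    M.eRk (M.closure (insert x F)) = M.eRk F + 1 := by
  rw [Matroid.eRk_closure_eq]
  apply Matroid.eRk_insert_eq_add_one
  refine ⟨by simp [hE], by rwa [hF.closure]⟩

theorem subset_closure' (hE : M.E = univ) (X : Set α) : X ⊆ M.closure X :=
  M.subset_closure X (by simp [hE])

theorem closure_subset_flat {F X : Set α} (hF : M.IsFlat F) (h : X ⊆ F) : M.closure X ⊆ F := by
  have := M.closure_subset_closure h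
  rwa [hF.closure] at this

theorem eq_closure_insert (hE : M.E = univ) {F C : Set α} (hF : M.IsFlat F) (hC : M.IsFlat C)
    (hFC : F ⊆ C) (hr : M.eRk C = M.eRk F + 1) {x : α} (hxC : x ∈ C) (hx : x ∉ F) :
    M.closure (insert x F) = C := by
  apply flat_eq_of_subset (M.isFlat_closure _) hC
  · exact closure_subset_flat hC (insert_subset hxC hFC)
  · rw [hr, eRk_closure_insert hE hF hx]

theorem closure_insert_mem_covers (hE : M.E = univ) {F G : Set α} (hF : M.IsFlat F)
    (hG : M.IsFlat G) (hFG : F ⊆ G) {x : α} (hxG : x ∈ G) (hx : x ∉ F) :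
    M.closure (insert x F) ∈ covers M F G := by
  rw [mem_covers]
  refine ⟨M.isFlat_closure _, (subset_insert _ _).trans (subset_closure' hE _),
    closure_subset_flat hG (insert_subset hxG hFG), eRk_closure_insert hE hF hx⟩

/-- The flats covering `F` in `G` partition `G \ F`. -/
theorem sum_covers (hE : M.E = univ) {F G : Set α} (hF : M.IsFlat F) (hG : M.IsFlat G)
    (hFG : F ⊆ G) (B : Set α) :
    ∑ C ∈ covers M F G, (B ∩ (C \ F)).ncard = (B ∩ (G \ F)).ncard := by
  classical
  have hmaps : ∀ x ∈ (B ∩ (G \ F)).toFinset, M.closure (insert x F) ∈ covers M F G := by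
    intro x hx
    rw [Set.mem_toFinset] at hx
    exact closure_insert_mem_covers hE hF hG hFG hx.2.1 hx.2.2
  rw [Set.ncard_eq_toFinset_card' (B ∩ (G \ F)),
    Finset.card_eq_sum_card_fiberwise (f := fun x => M.closure (insert x F))
      (t := covers M F G) hmaps]
  apply Finset.sum_congr rfl
  intro C hC
  rw [Set.ncard_eq_toFinset_card']
  congr 1
  ext x
  simp only [Set.mem_toFinset, Finset.mem_filter, mem_inter_iff, mem_sdiff]
  obtain ⟨h1, h2, h3, h4⟩ := mem_covers.1 hC
  constructor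
  · rintro ⟨hxB, hxC, hxF⟩
    exact ⟨⟨hxB, h3 hxC, hxF⟩, eq_closure_insert hE hF h1 h2 h4 hxC hxF⟩
  · rintro ⟨⟨hxB, hxG, hxF⟩, h⟩
    refine ⟨hxB, ?_, hxF⟩
    rw [← h]
    exact subset_closure' hE _ (mem_insert _ _)

theorem ncard_inter_diff {B C F : Set α} (hFC : F ⊆ C) :
    (B ∩ (C \ F)).ncard + (B ∩ F).ncard = (B ∩ C).ncard := by
  rw [← Set.ncard_union_eq]
  · congr 1
    ext x
    simp only [mem_union, mem_inter_iff, mem_sdiff]
    constructor
    · rintro (⟨h1, h2, h3⟩ | ⟨h1, h2⟩)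
      · exact ⟨h1, h2⟩
      · exact ⟨h1, hFC h2⟩
    · rintro ⟨h1, h2⟩
      by_cases h : x ∈ F
      · exact Or.inr ⟨h1, h⟩
      · exact Or.inl ⟨h1, h2, h⟩
  · rw [Set.disjoint_left]
    rintro x ⟨_, _, h⟩ ⟨_, h'⟩
    exact h h'

/-- arithmetic core -/
theorem arith {K K' N V P : ℤ} (h1 : K * K' - 1 = N * (K' - 1)) (h2 : V - 1 = N * (K - 1))
    (h3 : P * K = V * N) (hK' : 2 ≤ K') (hN : 2 ≤ N) (hK : 0 < K) : K = K' := by
  set t := N - K with ht
  have hN1 : N - 1 = K' * t := by rw [ht]; linarith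
  have htpos : 0 < t := by
    by_contra h
    have : K' * t ≤ 0 := mul_nonpos_of_nonneg_of_nonpos (by linarith) (by linarith)
    linarith
  have hK1 : K = 1 + (K' - 1) * t := by
    have : K = N - t := by rw [ht]; ring
    rw [this]
    linarith
  -- K divides t (t-1)
  have hdiv : K ∣ t * (t - 1) := by
    have h4 : P * K = (1 + N * (K - 1)) * N := by rw [h3]; rw [← h2]; ring
    have h5 : N = K + t := by rw [ht]; ring
    refine ⟨N * N - P - 2 * N + K + 1, ?_⟩
    have h6 : t * (t - 1) = (N - K) * (N - K - 1) := by rw [h5]; ring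
    rw [h6]
    linear_combination h4
  have hcop : IsCoprime K t := by
    refine ⟨1, -(K' - 1), ?_⟩
    rw [hK1]; ring
  have hdiv2 : K ∣ t - 1 := hcop.dvd_of_dvd_mul_left hdiv
  have ht1 : t = 1 := by
    by_contra hne
    have h8 : 0 < t - 1 := by omega
    have h9 := Int.le_of_dvd h8 hdiv2
    nlinarith
  rw [hK1, ht1]; ring

end Pool.Agent.H69.Pmd
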