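import Mathlib
import Pool.Agent.H69.PmdCount

/-!
# Sets containing a flat of rank `r - 3` in a perfect matroid design
-/

open Set

namespace Pool.Agent.H69.Pmd

set_option linter.unusedSectionVars false
set_option maxHeartbeats 1000000

variable {α : Type*} [Fintype α] {M : Matroid α}

/-- Matroid of rank `r` on the whole type, all flats of rank `i` having size `σ i`. -/
structure IsPmd (M : Matroid α) (r : ℕ) (σ : ℕ → ℕ) : Prop where
  ground : M.E = univ
  rank : M.eRk univ = (r : ℕ∞)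
  size : ∀ (F : Set α) (i : ℕ), M.IsFlat F → M.eRk F = (i : ℕ∞) → F.ncard = σ i

theorem mem_covers_rank {F G C : Set α} {i : ℕ} (hF : M.eRk F = i) (h : C ∈ covers M F G) :
    M.eRk C = ((i + 1 : ℕ) : ℕ∞) := by
  rw [(mem_covers.1 h).2.2.2, hF]; push_cast; rfl

/-- Counting covers by sizes. -/
theorem card_covers_mul (hE : M.E = univ) {F G : Set α} (hF : M.IsFlat F) (hG : M.IsFlat G)
    (hFG : F ⊆ G) {B : Set α} {d : ℕ}
    (h : ∀ C ∈ covers M F G, (B ∩ (C \ F)).ncard = d) :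
    (covers M F G).card * d = (B ∩ (G \ F)).ncard := by
  rw [← sum_covers hE hF hG hFG B, Finset.sum_congr rfl h, Finset.sum_const, smul_eq_mul]

/-- A flat extends to flats of every larger rank. -/
theorem exists_flat_ge (hE : M.E = univ) {r : ℕ} (hr : M.eRk univ = (r : ℕ∞)) (d : ℕ) :
    ∀ {F : Set α} {i : ℕ}, M.IsFlat F → M.eRk F = (i : ℕ∞) → i + d ≤ r →
      ∃ G, M.IsFlat G ∧ F ⊆ G ∧ M.eRk G = ((i + d : ℕ) : ℕ∞) := by
  induction d with
  | zero => intro F i hF hi _; exact ⟨F, hF, Subset.rfl, by simpa using hi⟩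
  | succ d ih =>
    intro F i hF hi hle
    have hne : F ≠ univ := by
      rintro rfl
      rw [hr] at hi
      have : r = i := by exact_mod_cast hi
      omega
    obtain ⟨x, hx⟩ := (ne_univ_iff_exists_notMem F).1 hne
    obtain ⟨G, hG, hFG, hGr⟩ := ih (F := M.closure (insert x F)) (i := i + 1)
      (M.isFlat_closure _) (by rw [eRk_closure_insert hE hF hx, hi]; push_cast; rfl) (by omega)
    refine ⟨G, hG, ((subset_insert _ _).trans (subset_closure' hE _)).trans hFG, ?_⟩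
    rw [hGr]; congr 1; omega

theorem isFlat_inter (hE : M.E = univ) {D C : Set α} (hD : M.IsFlat D) (hC : M.IsFlat C) :
    M.IsFlat (D ∩ C) := by
  rw [Matroid.isFlat_iff_closure_eq]
  apply Subset.antisymm
  · exact subset_inter (closure_subset_flat hD inter_subset_left)
      (closure_subset_flat hC inter_subset_right)
  · exact subset_closure' hE _

/-- De Bruijn-Erdos inequality: the number of flats of rank `i + 1` between `F'` and `C` is at most
the number of flats of rank `i + 2` between `F` and `H` if `F` is not in `C`. -/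
theorem card_covers_le (hE : M.E = univ) {F' F C H : Set α} {i : ℕ} (hF' : M.IsFlat F')
    (hF : M.IsFlat F) (hC : M.IsFlat C) (hH : M.IsFlat H) (hF'r : M.eRk F' = (i : ℕ∞))
    (hFr : M.eRk F = ((i + 1 : ℕ) : ℕ∞)) (hCr : M.eRk C = ((i + 2 : ℕ) : ℕ∞))
    (hF'F : F' ⊆ F) (hFH : F ⊆ H) (hCH : C ⊆ H) (hFC : ¬ F ⊆ C) :
    (covers M F' C).card ≤ (covers M F H).card := by
  classical
  have key : ∀ G ∈ covers M F' C, ∃ D, D ∈ covers M F H ∧ G ⊆ D := by
    intro G hG
    obtain ⟨hGf, hF'G, hGC, hGr⟩ := mem_covers.1 hG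
    obtain ⟨z, hzG, hzF'⟩ : ∃ z ∈ G, z ∉ F' := by
      by_contra hcon
      push Not at hcon
      have : F' = G := Subset.antisymm hF'G hcon
      rw [← this, hF'r] at hGr
      have : i = i + 1 := by exact_mod_cast hGr
      omega
    have hclG : M.closure (insert z F') = G :=
      eq_closure_insert hE hF' hGf hF'G hGr hzG hzF'
    have hzF : z ∉ F := by
      intro hzF
      have h1 : M.closure (insert z F') = F := by
        apply eq_closure_insert hE hF' hF hF'F _ hzF hzF'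
        rw [hFr, hF'r]; push_cast; rfl
      exact hFC (by rw [← h1, hclG]; exact hGC)
    refine ⟨_, closure_insert_mem_covers hE hF hH hFH (hCH (hGC hzG)) hzF, ?_⟩
    rw [← hclG]
    exact M.closure_subset_closure (insert_subset_insert hF'F)
  choose! φ h1 h2 using key
  apply Finset.card_le_card_of_injOn φ
  · intro G hG
    exact h1 G hG
  · intro G₁ hG₁ G₂ hG₂ heq
    simp only [Finset.mem_coe] at hG₁ hG₂
    set D : Set α := φ G₁ with hD
    have hDf : M.IsFlat D := (mem_covers.1 (h1 G₁ hG₁)).1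
    have hDr : M.eRk D = ((i + 2 : ℕ) : ℕ∞) := mem_covers_rank hFr (h1 G₁ hG₁)
    have hFD : F ⊆ D := (mem_covers.1 (h1 G₁ hG₁)).2.1
    have hDC : M.IsFlat (D ∩ C) := isFlat_inter hE hDf hC
    have hrk : M.eRk (D ∩ C) ≤ ((i + 1 : ℕ) : ℕ∞) := by
      obtain ⟨j, hj⟩ := ENat.ne_top_iff_exists.1 (eRk_lt_top M (D ∩ C)).ne
      rw [← hj]
      have : j ≤ i + 1 := by
        by_contra hlt
        have e1 : M.eRk C ≤ M.eRk (D ∩ C) := by
          rw [hCr, ← hj]; exact_mod_cast (by omega : i + 2 ≤ j)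
        have e2 := flat_eq_of_subset hDC hC inter_subset_right e1
        have e3 : C ⊆ D := by rw [← e2]; exact inter_subset_left
        have e4 := flat_eq_of_subset hC hDf e3 (by rw [hCr, hDr])
        exact hFC (e4 ▸ hFD)
      exact_mod_cast this
    have aux : ∀ G ∈ covers M F' C, G ⊆ D → G = D ∩ C := by
      intro G hG hGD
      obtain ⟨hGf, hF'G, hGC, hGr⟩ := mem_covers.1 hG
      apply flat_eq_of_subset hGf hDC (subset_inter hGD hGC)
      rw [hGr, hF'r]
      refine hrk.trans ?_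
      push_cast; rfl
    rw [aux G₁ hG₁ (h2 G₁ hG₁), aux G₂ hG₂ (by rw [heq]; exact h2 G₂ hG₂)]

variable {r : ℕ} {σ : ℕ → ℕ}

theorem IsPmd.exists_flat (h : IsPmd M r σ) {i : ℕ} (hi : i ≤ r) :
    ∃ F, M.IsFlat F ∧ M.eRk F = (i : ℕ∞) := by
  obtain ⟨G, hG, _, hGr⟩ := exists_flat_ge h.ground h.rank i (F := M.closure ∅) (i := 0)
    (M.isFlat_closure _) (by simp) (by omega)
  exact ⟨G, hG, by simpa using hGr⟩

theorem IsPmd.lt (h : IsPmd M r σ) {i j : ℕ} (hij : i < j) (hj : j ≤ r) : σ i < σ j := by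
  obtain ⟨F, hF, hFr⟩ := h.exists_flat (i := i) (by omega)
  obtain ⟨G, hG, hFG, hGr⟩ := exists_flat_ge h.ground h.rank (j - i) hF hFr (by omega)
  have hGr' : M.eRk G = (j : ℕ∞) := by rw [hGr]; congr 1; omega
  rw [← h.size F i hF hFr, ← h.size G j hG hGr']
  apply Set.ncard_lt_ncard _ (Set.toFinite _)
  refine ⟨hFG, fun hGF => ?_⟩
  have : F = G := Subset.antisymm hFG hGF
  rw [this, hGr'] at hFr
  have : j = i := by exact_mod_cast hFr
  omega

theorem IsPmd.le (h : IsPmd M r σ) {i j : ℕ} (hij : i ≤ j) (hj : j ≤ r) : σ i ≤ σ j := by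
  rcases Nat.eq_or_lt_of_le hij with rfl | hlt
  · exact le_rfl
  · exact (h.lt hlt hj).le

/-- The number of covers of a flat of rank `i` in a flat of rank `j`. -/
theorem IsPmd.covers_mul (h : IsPmd M r σ) {F G : Set α} {i j : ℕ} (hF : M.IsFlat F)
    (hG : M.IsFlat G) (hFr : M.eRk F = (i : ℕ∞)) (hGr : M.eRk G = (j : ℕ∞)) (hFG : F ⊆ G) :
    (covers M F G).card * (σ (i + 1) - σ i) = σ j - σ i := by
  have h1 := card_covers_mul h.ground hF hG hFG (B := univ) (d := σ (i + 1) - σ i) (by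
    intro C hC
    obtain ⟨h4, h5, h6, h7⟩ := mem_covers.1 hC
    have h8 := ncard_inter_diff (B := univ) h5
    simp only [univ_inter] at h8 ⊢
    rw [h.size F i hF hFr, h.size C (i + 1) h4 (mem_covers_rank hFr hC)] at h8
    omega)
  have h2 := ncard_inter_diff (B := univ) hFG
  simp only [univ_inter] at h1 h2
  rw [h.size F i hF hFr, h.size G j hG hGr] at h2
  omega

/-- Independent triples: flats `F' ⊂ F ⊂ H`, `F' ⊂ C ⊂ H` with `F` not in `C`. -/
theorem exists_config (hE : M.E = univ) {F H : Set α} {i : ℕ} (hF : M.IsFlat F)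
    (hH : M.IsFlat H) (hFr : M.eRk F = ((i + 1 : ℕ) : ℕ∞))
    (hHr : M.eRk H = ((i + 3 : ℕ) : ℕ∞)) (hFH : F ⊆ H) :
    ∃ F' C : Set α, M.IsFlat F' ∧ M.IsFlat C ∧ M.eRk F' = (i : ℕ∞) ∧
      M.eRk C = ((i + 2 : ℕ) : ℕ∞) ∧ F' ⊆ F ∧ F' ⊆ C ∧ C ⊆ H ∧ ¬ F ⊆ C := by
  obtain ⟨J, hJ⟩ := M.exists_isBasis F (by simp [hE])
  obtain ⟨I, hI, hJI⟩ := hJ.indep.subset_isBasis_of_subset (hJ.subset.trans hFH)
    (by simp [hE] : H ⊆ M.E)
  have hJn : J.ncard = i + 1 := by
    have h1 := hJ.encard_eq_eRk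
    rw [hFr, ← (Set.toFinite J).cast_ncard_eq] at h1
    exact_mod_cast h1
  have hIn : I.ncard = i + 3 := by
    have h1 := hI.encard_eq_eRk
    rw [hHr, ← (Set.toFinite I).cast_ncard_eq] at h1
    exact_mod_cast h1
  obtain ⟨j, hj⟩ : J.Nonempty := by
    rw [← Set.ncard_pos (Set.toFinite _), hJn]; omega
  have hjI : j ∈ I := hJI hj
  refine ⟨M.closure (J \ {j}), M.closure (I \ {j}), M.isFlat_closure _, M.isFlat_closure _, ?_, ?_,
    ?_, ?_, ?_, ?_⟩
  · rw [Matroid.eRk_closure_eq, (hJ.indep.subset sdiff_subset).eRk_eq_encard,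
      ← (Set.toFinite _).cast_ncard_eq, Set.ncard_sdiff_singleton_of_mem hj, hJn]
    rfl
  · rw [Matroid.eRk_closure_eq, (hI.indep.subset sdiff_subset).eRk_eq_encard,
      ← (Set.toFinite _).cast_ncard_eq, Set.ncard_sdiff_singleton_of_mem hjI, hIn]
    rfl
  · exact closure_subset_flat hF (sdiff_subset.trans hJ.subset)
  · exact M.closure_subset_closure (sdiff_subset_sdiff_left hJI)
  · exact closure_subset_flat hH (sdiff_subset.trans hI.subset)
  · intro h
    exact hI.indep.notMem_closure_sdiff_of_mem hjI (h (hJ.subset hj))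

/-- If `σ (i+3) - σ (i+2) = σ (i+2) - σ (i+1)` then also `σ (i+2) - σ (i+1) = σ (i+1) - σ i`. -/
theorem IsPmd.diff_eq (h : IsPmd M r σ) {i : ℕ} (hi : i + 3 ≤ r)
    (heq : σ (i + 3) - σ (i + 2) = σ (i + 2) - σ (i + 1)) :
    σ (i + 2) - σ (i + 1) = σ (i + 1) - σ i := by
  obtain ⟨F, hF, hFr⟩ := h.exists_flat (i := i + 1) (by omega)
  obtain ⟨H, hH, hFH, hHr⟩ := exists_flat_ge h.ground h.rank 2 hF hFr (by omega)
  have hHr' : M.eRk H = ((i + 3 : ℕ) : ℕ∞) := by rw [hHr]
  obtain ⟨F', C, hF', hC, hF'r, hCr, h1, h2, h3, h4⟩ :=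
    exists_config h.ground hF hH hFr hHr' hFH
  have hle := card_covers_le h.ground hF' hF hC hH hF'r hFr hCr h1 hFH h3 h4
  have e1 := h.covers_mul hF' hC hF'r hCr h2
  have e2 := h.covers_mul hF hH hFr hHr' hFH
  have l1 := h.lt (show i < i + 1 by omega) (by omega)
  have l2 := h.lt (show i + 1 < i + 2 by omega) (by omega)
  have l3 := h.lt (show i + 2 < i + 3 by omega) (by omega)
  rw [show i + 1 + 1 = i + 2 from rfl] at e2
  set a := (covers M F' C).card
  set b := (covers M F H).card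
  set d0 := σ (i + 1) - σ i with hd0
  set d1 := σ (i + 2) - σ (i + 1) with hd1
  have e1' : a * d0 = d1 + d0 := by omega
  have e2' : b * d1 = d1 + d1 := by omega
  have d0p : 0 < d0 := by omega
  have d1p : 0 < d1 := by omega
  have hb : b = 2 := by
    have : b * d1 = 2 * d1 := by omega
    exact Nat.eq_of_mul_eq_mul_right d1p this
  have ha : a ≤ 2 := by omega
  have ha2 : a * d0 ≤ 2 * d0 := Nat.mul_le_mul_right _ ha
  have : 1 < a := by
    by_contra hcon
    have : a ≤ 1 := by omega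
    have : a * d0 ≤ 1 * d0 := Nat.mul_le_mul_right _ this
    omega
  have ha' : a = 2 := by omega
  rw [ha'] at e1'
  omega

/-- If two consecutive differences agree, all smaller ones are `1`. -/
theorem IsPmd.diff_eq_one (h : IsPmd M r σ) (h0 : σ 0 = 0) (h1 : σ 1 = 1) (i : ℕ) :
    i + 3 ≤ r → σ (i + 3) - σ (i + 2) = σ (i + 2) - σ (i + 1) → σ (i + 1) - σ i = 1 := by
  induction i with
  | zero => intro _ _; simp [h0, h1]
  | succ i ih =>
    intro hi heq
    have e1 := h.diff_eq hi heq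
    have e2 := h.diff_eq (i := i) (by omega) e1
    have e3 := ih (by omega) e1
    rw [show i + 1 + 1 = i + 2 from rfl, e2, e3]

open Classical in
/-- The flats of rank `j` containing `F`. -/
noncomputable def above (M : Matroid α) (F : Set α) (j : ℕ) : Finset (Set α) :=
  Finset.univ.filter fun G => M.IsFlat G ∧ M.eRk G = (j : ℕ∞) ∧ F ⊆ G

theorem mem_above {F G : Set α} {j : ℕ} :
    G ∈ above M F j ↔ M.IsFlat G ∧ M.eRk G = (j : ℕ∞) ∧ F ⊆ G := by
  simp [above]

theorem double_count {F : Set α} {j K P : ℕ}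
    (hP : ∀ C ∈ covers M F univ, (above M C j).card = P)
    (hK : ∀ H ∈ above M F j, (covers M F H).card = K) :
    (above M F j).card * K = (covers M F univ).card * P := by
  classical
  have h1 := Finset.sum_card_bipartiteAbove_eq_sum_card_bipartiteBelow
    (s := covers M F univ) (t := above M F j) (fun C H => C ⊆ H)
  have h2 : ∀ C ∈ covers M F univ,
      (Finset.bipartiteAbove (fun C H => C ⊆ H) (above M F j) C).card = P := by
    intro C hC
    obtain ⟨h4, h5, h6, h7⟩ := mem_covers.1 hC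
    rw [← hP C hC]
    congr 1
    ext H
    simp only [Finset.mem_bipartiteAbove, mem_above]
    constructor
    · rintro ⟨⟨a1, a2, a3⟩, a4⟩
      exact ⟨a1, a2, a4⟩
    · rintro ⟨a1, a2, a3⟩
      exact ⟨⟨a1, a2, h5.trans a3⟩, a3⟩
  have h3 : ∀ H ∈ above M F j,
      (Finset.bipartiteBelow (fun C H => C ⊆ H) (covers M F univ) H).card = K := by
    intro H hH
    obtain ⟨a1, a2, a3⟩ := mem_above.1 hH
    rw [← hK H hH]
    congr 1
    ext C
    simp only [Finset.mem_bipartiteBelow, mem_covers]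
    constructor
    · rintro ⟨⟨c1, c2, -, c4⟩, c5⟩
      exact ⟨c1, c2, c5, c4⟩
    · rintro ⟨c1, c2, c3, c4⟩
      exact ⟨⟨c1, c2, subset_univ _, c4⟩, c3⟩
  rw [Finset.sum_congr rfl h2, Finset.sum_congr rfl h3, Finset.sum_const, Finset.sum_const,
    smul_eq_mul, smul_eq_mul] at h1
  exact h1.symm

theorem above_succ {F : Set α} {i : ℕ} (hFr : M.eRk F = (i : ℕ∞)) :
    above M F (i + 1) = covers M F univ := by
  ext G
  rw [mem_above, mem_covers, hFr]
  constructor
  · rintro ⟨a, b, c⟩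
    exact ⟨a, c, subset_univ _, by rw [b]; push_cast; rfl⟩
  · rintro ⟨a, b, c, d⟩
    exact ⟨a, by rw [d]; push_cast; rfl, b⟩

/-- The second arithmetic step. -/
theorem arith2 {K q W : ℤ} (hK : 2 ≤ K) (hq : 0 < q)
    (h : W * (K * q + 1) = (K * K * q + 1) * (K * (K + 1))) : q = 1 := by
  set D := K * q + 1 with hD
  have hDpos : 0 < D := by positivity
  have hcop : IsCoprime D K := ⟨1, -q, by rw [hD]; ring⟩
  have h1 : D ∣ K * ((K - 1) * (K + 1)) := by
    refine ⟨K * (K * (K + 1)) - W, ?_⟩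
    have : K * K * q + 1 = K * D - (K - 1) := by rw [hD]; ring
    rw [this] at h
    linear_combination h
  have h2 : D ∣ (K - 1) * (K + 1) := hcop.dvd_of_dvd_mul_left h1
  obtain ⟨c, hc⟩ := h2
  have hc0 : 0 < c := by
    by_contra hneg
    have h3 : D * c ≤ 0 := mul_nonpos_of_nonneg_of_nonpos hDpos.le (not_lt.1 hneg)
    nlinarith
  have h4 : K ∣ c + 1 := by
    refine ⟨K - q * c, ?_⟩
    rw [hD] at hc
    linear_combination -hc
  have h5 : K ≤ c + 1 := Int.le_of_dvd (by linarith) h4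
  have h6 : D ≤ K + 1 := by
    by_contra hcon
    have h7 : K + 2 ≤ D := by omega
    have h8 : (K + 2) * (K - 1) ≤ D * c := by
      apply mul_le_mul h7 (by linarith) (by linarith) hDpos.le
    nlinarith
  rw [hD] at h6
  have h7 : K * q ≤ K * 1 := by linarith
  have h8 : q ≤ 1 := le_of_mul_le_mul_left h7 (by linarith)
  linarith

/-- The numerical consequences of a bad set containing a flat of rank `s = r - 3`. -/
theorem IsPmd.core1 {s : ℕ} (h : IsPmd M (s + 3) σ) {B F : Set α}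
    (hF : M.IsFlat F) (hFr : M.eRk F = (s : ℕ∞)) (hFB : F ⊆ B) (hBk : B.ncard = σ (s + 2))
    (hbad : ∀ H : Set α, M.IsFlat H → M.eRk H = ((s + 2 : ℕ) : ℕ∞) →
      ∃ i ≤ s + 1, (B ∩ H).ncard = σ i) :
    ∃ K A : ℤ, 2 ≤ K ∧ 0 < A ∧ (σ (s + 1) : ℤ) - σ s = K * A ∧
      (σ (s + 2) : ℤ) - σ s = K * ((σ (s + 1) : ℤ) - σ s) ∧
      (σ (s + 3) : ℤ) - σ s = K * K * ((σ (s + 1) : ℤ) - σ s) ∧
      ∀ G : Set α, M.IsFlat G → M.eRk G = (s : ℕ∞) →
        ((above M G (s + 2)).card : ℤ) = K * (K + 1) := by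
  classical
  have hE := h.ground
  have huniv : M.IsFlat (univ : Set α) := hE ▸ M.ground_isFlat
  obtain ⟨a, ha_def⟩ : ∃ a, a = σ s := ⟨_, rfl⟩
  obtain ⟨l, hl⟩ : ∃ a, a = σ (s + 1) := ⟨_, rfl⟩
  obtain ⟨k, hk⟩ : ∃ a, a = σ (s + 2) := ⟨_, rfl⟩
  obtain ⟨v, hv⟩ : ∃ a, a = σ (s + 3) := ⟨_, rfl⟩
  have hal : a < l := by rw [ha_def, hl]; exact h.lt (by omega) (by omega)
  have hlk : l < k := by rw [hk, hl]; exact h.lt (by omega) (by omega)
  have hkv : k < v := by rw [hk, hv]; exact h.lt (by omega) (by omega)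
  have hFn : F.ncard = a := by rw [ha_def]; exact h.size F s hF hFr
  rw [← hk] at hBk
  obtain ⟨x, hxB, hxF⟩ : ∃ x ∈ B, x ∉ F := by
    by_contra hcon
    push Not at hcon
    have := Set.ncard_le_ncard (show B ⊆ F from hcon) (Set.toFinite _)
    omega
  obtain ⟨C₀, hC₀⟩ : ∃ C₀ : Set α, C₀ = M.closure (insert x F) := ⟨_, rfl⟩
  have hC₀f : M.IsFlat C₀ := hC₀ ▸ M.isFlat_closure _
  have hC₀r : M.eRk C₀ = ((s + 1 : ℕ) : ℕ∞) := by
    rw [hC₀, eRk_closure_insert hE hF hxF, hFr]; push_cast; rfl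
  have hFC₀ : F ⊆ C₀ := hC₀ ▸ (subset_insert _ _).trans (subset_closure' hE _)
  have hxC₀ : x ∈ C₀ := hC₀ ▸ subset_closure' hE _ (mem_insert _ _)
  obtain ⟨H₁, hH₁f, hC₀H₁, hH₁r⟩ := exists_flat_ge hE h.rank 1 hC₀f hC₀r (by omega)
  have hH₁r' : M.eRk H₁ = ((s + 2 : ℕ) : ℕ∞) := by rw [hH₁r]
  have hFH₁ : F ⊆ H₁ := hFC₀.trans hC₀H₁
  -- (a)
  have ha : ∀ H : Set α, M.IsFlat H → M.eRk H = ((s + 2 : ℕ) : ℕ∞) → a < (B ∩ H).ncard →
      (B ∩ H).ncard = l := by
    intro H hH hHr hlt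
    obtain ⟨i, hi, hc⟩ := hbad H hH hHr
    rcases Nat.lt_or_ge s i with h' | h'
    · have : i = s + 1 := by omega
      rw [hc, this, hl]
    · have := h.le h' (by omega)
      omega
  obtain ⟨N, hN⟩ : ∃ N, N = (covers M C₀ univ).card := ⟨_, rfl⟩
  have hc1 : ∀ C : Set α, M.IsFlat C → M.eRk C = ((s + 1 : ℕ) : ℕ∞) →
      (covers M C univ).card * (k - l) = v - l := fun C hC hCr => by
    rw [hk, hl, hv]
    exact h.covers_mul hC huniv hCr h.rank (subset_univ _)
  have hNC : ∀ C : Set α, M.IsFlat C → M.eRk C = ((s + 1 : ℕ) : ℕ∞) →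
      (covers M C univ).card = N := by
    intro C hC hCr
    have h3 : (covers M C univ).card * (k - l) = N * (k - l) := by
      rw [hc1 C hC hCr, hN, hc1 C₀ hC₀f hC₀r]
    exact Nat.eq_of_mul_eq_mul_right (by omega) h3
  have hc0 : N * (k - l) = v - l := by rw [hN]; exact hc1 C₀ hC₀f hC₀r
  have hbN : ∀ C : Set α, M.IsFlat C → M.eRk C = ((s + 1 : ℕ) : ℕ∞) → a < (B ∩ C).ncard →
      (B ∩ C).ncard ≤ l ∧ N * (l - (B ∩ C).ncard) = k - (B ∩ C).ncard := by
    intro C hC hCr hlt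
    have hle : (B ∩ C).ncard ≤ l := by
      rw [hl, ← h.size C (s + 1) hC hCr]
      exact Set.ncard_le_ncard inter_subset_right (Set.toFinite _)
    refine ⟨hle, ?_⟩
    have h1 := card_covers_mul hE hC huniv (subset_univ C) (B := B)
      (d := l - (B ∩ C).ncard) (by
      intro H hH
      obtain ⟨h1, h2, h3, h4⟩ := mem_covers.1 hH
      have h5 := ncard_inter_diff (B := B) h2
      have h6 : a < (B ∩ H).ncard := hlt.trans_le
        (Set.ncard_le_ncard (inter_subset_inter_right _ h2) (Set.toFinite _))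
      have h7 := ha H h1 (mem_covers_rank hCr hH) h6
      omega)
    have h5 := ncard_inter_diff (B := B) (subset_univ C)
    rw [inter_univ, hBk] at h5
    rw [← hNC C hC hCr, h1]; omega
  obtain ⟨m, hm⟩ : ∃ m, m = (B ∩ C₀).ncard := ⟨_, rfl⟩
  have ham : a < m := by
    rw [hm, ← hFn]
    apply Set.ncard_lt_ncard _ (Set.toFinite _)
    refine ⟨subset_inter hFB hFC₀, fun h => hxF (h ⟨hxB, hxC₀⟩)⟩
  obtain ⟨hml, hNm⟩ := hbN C₀ hC₀f hC₀r (hm ▸ ham)
  rw [← hm] at hml hNm
  have hml' : m < l := by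
    rcases Nat.lt_or_ge m l with h | h
    · exact h
    · have : m = l := by omega
      rw [this] at hNm
      simp at hNm
      omega
  have hN2 : 2 ≤ N := by
    by_contra h
    have : N ≤ 1 := by omega
    have : N * (k - l) ≤ 1 * (k - l) := Nat.mul_le_mul_right _ this
    omega
  -- (e)
  have hbm : ∀ C : Set α, M.IsFlat C → M.eRk C = ((s + 1 : ℕ) : ℕ∞) → a < (B ∩ C).ncard →
      (B ∩ C).ncard = m := by
    intro C hC hCr hlt
    obtain ⟨h1, h2⟩ := hbN C hC hCr hlt
    obtain ⟨b, hb⟩ : ∃ b, b = (B ∩ C).ncard := ⟨_, rfl⟩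
    rw [← hb] at h1 h2 ⊢
    have hbk : b ≤ k := by omega
    have e1 : (N : ℤ) * (l - b) = k - b := by
      have := congrArg (Nat.cast : ℕ → ℤ) h2
      push_cast [Nat.cast_sub h1, Nat.cast_sub hbk] at this
      exact this
    have e2 : (N : ℤ) * (l - m) = k - m := by
      have := congrArg (Nat.cast : ℕ → ℤ) hNm
      push_cast [Nat.cast_sub hml, Nat.cast_sub (show m ≤ k by omega)] at this
      exact this
    have e3 : ((N : ℤ) - 1) * ((m : ℤ) - b) = 0 := by linear_combination e1 - e2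
    rcases mul_eq_zero.1 e3 with h | h
    · have : (2 : ℤ) ≤ N := by exact_mod_cast hN2
      linarith
    · have : (m : ℤ) = b := by linarith
      exact_mod_cast this.symm
  -- (f)
  have hBF : (B ∩ F).ncard = a := by
    rw [inter_eq_right.2 hFB, hFn]
  have hf : ∀ G : Set α, M.IsFlat G → F ⊆ G →
      ((covers M F G).filter fun C => a < (B ∩ C).ncard).card * (m - a) =
        (B ∩ G).ncard - a := by
    intro G hG hFG
    have h1 := sum_covers hE hF hG hFG B
    have h2 := ncard_inter_diff (B := B) hFG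
    rw [hBF] at h2
    have h3 : ∀ C ∈ covers M F G, (B ∩ (C \ F)).ncard =
        if a < (B ∩ C).ncard then m - a else 0 := by
      intro C hC
      obtain ⟨h4, h5, h6, h7⟩ := mem_covers.1 hC
      have h8 := ncard_inter_diff (B := B) h5
      rw [hBF] at h8
      have h9 := hbm C h4 (mem_covers_rank hFr hC)
      split_ifs with h
      · rw [h9 h] at h8; omega
      · omega
    rw [Finset.sum_congr rfl h3, ← Finset.sum_filter, Finset.sum_const, smul_eq_mul] at h1
    rw [h1]; omega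
  -- (g)
  have hbH₁ : (B ∩ H₁).ncard = l := by
    apply ha H₁ hH₁f hH₁r'
    rw [hm] at ham
    exact ham.trans_le (Set.ncard_le_ncard (inter_subset_inter_right _ hC₀H₁) (Set.toFinite _))
  obtain ⟨K', hK'⟩ : ∃ K', K' = ((covers M F H₁).filter fun C => a < (B ∩ C).ncard).card :=
    ⟨_, rfl⟩
  have hg1 : K' * (m - a) = l - a := by rw [hK', hf H₁ hH₁f hFH₁, hbH₁]
  -- (h)
  obtain ⟨K, hK⟩ : ∃ K, K = (covers M F H₁).card := ⟨_, rfl⟩
  obtain ⟨V, hV⟩ : ∃ V, V = (covers M F univ).card := ⟨_, rfl⟩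
  have hh1 : K * (l - a) = k - a := by
    rw [hK, hk, hl, ha_def]; exact h.covers_mul hF hH₁f hFr hH₁r' hFH₁
  have hh2 : V * (l - a) = v - a := by
    rw [hV, hv, hl, ha_def]; exact h.covers_mul hF huniv hFr h.rank (subset_univ _)
  have hKH : ∀ G H : Set α, M.IsFlat G → M.eRk G = (s : ℕ∞) → H ∈ above M G (s + 2) →
      (covers M G H).card = K := by
    intro G H hG hGr hH
    obtain ⟨b1, b2, b3⟩ := mem_above.1 hH
    have h1 := h.covers_mul hG b1 hGr b2 b3
    rw [← hk, ← ha_def, ← hl, ← hh1] at h1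
    exact Nat.eq_of_mul_eq_mul_right (by omega) h1
  have hVG : ∀ G : Set α, M.IsFlat G → M.eRk G = (s : ℕ∞) →
      (covers M G univ).card = V := by
    intro G hG hGr
    have h1 := h.covers_mul hG huniv hGr h.rank (subset_univ _)
    rw [← hv, ← ha_def, ← hl, ← hh2] at h1
    exact Nat.eq_of_mul_eq_mul_right (by omega) h1
  -- (i) double counting
  have hdc : ∀ G : Set α, M.IsFlat G → M.eRk G = (s : ℕ∞) →
      (above M G (s + 2)).card * K = V * N := by
    intro G hG hGr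
    rw [← hVG G hG hGr]
    apply double_count
    · intro C hC
      have hCr := mem_covers_rank hGr hC
      rw [above_succ hCr]
      exact hNC C (mem_covers.1 hC).1 hCr
    · intro H hH
      exact hKH G H hG hGr hH
  -- arithmetic
  obtain ⟨A, hA⟩ : ∃ A : ℤ, A = (m : ℤ) - a := ⟨_, rfl⟩
  have hA1 : 0 < A := by
    rw [hA]
    have : (a : ℤ) < m := by exact_mod_cast ham
    linarith
  have z1 : (K' : ℤ) * A = l - a := by
    have := congrArg (Nat.cast : ℕ → ℤ) hg1
    push_cast [Nat.cast_sub ham.le, Nat.cast_sub hal.le] at this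
    rw [hA]; exact this
  have z2 : (K : ℤ) * ((l : ℤ) - a) = k - a := by
    have := congrArg (Nat.cast : ℕ → ℤ) hh1
    push_cast [Nat.cast_sub hal.le, Nat.cast_sub (show a ≤ k by omega)] at this
    exact this
  have z3 : (V : ℤ) * ((l : ℤ) - a) = v - a := by
    have := congrArg (Nat.cast : ℕ → ℤ) hh2
    push_cast [Nat.cast_sub hal.le, Nat.cast_sub (show a ≤ v by omega)] at this
    exact this
  have z4 : (N : ℤ) * ((l : ℤ) - m) = k - m := by
    have := congrArg (Nat.cast : ℕ → ℤ) hNm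
    push_cast [Nat.cast_sub hml, Nat.cast_sub (show m ≤ k by omega)] at this
    exact this
  have z5 : (N : ℤ) * ((k : ℤ) - l) = v - l := by
    have := congrArg (Nat.cast : ℕ → ℤ) hc0
    push_cast [Nat.cast_sub hlk.le, Nat.cast_sub (show l ≤ v by omega)] at this
    exact this
  have z6 : ((above M F (s + 2)).card : ℤ) * K = V * N := by exact_mod_cast hdc F hF hFr
  have hlA : (0 : ℤ) < (l : ℤ) - a := by
    have : (a : ℤ) < l := by exact_mod_cast hal
    linarith
  have hK'2 : (2 : ℤ) ≤ K' := by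
    have : (m : ℤ) < l := by exact_mod_cast hml'
    by_contra h
    have h1 : (K' : ℤ) ≤ 1 := by omega
    have h2 : (K' : ℤ) * A ≤ 1 * A := mul_le_mul_of_nonneg_right h1 hA1.le
    rw [z1] at h2
    linarith
  have hKpos : (0 : ℤ) < K := by
    have h1 : (0 : ℤ) < (K : ℤ) * ((l : ℤ) - a) := by
      rw [z2]
      have : (a : ℤ) < k := by exact_mod_cast hal.trans hlk
      linarith
    by_contra hneg
    have h3 := mul_nonpos_of_nonpos_of_nonneg (not_lt.1 hneg) hlA.le
    linarith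
  have y1 : (K : ℤ) * K' - 1 = N * (K' - 1) := by
    apply mul_left_cancel₀ hA1.ne'
    have : (k : ℤ) - m = (k - a) - A := by rw [hA]; ring
    have e2 : (l : ℤ) - m = (l - a) - A := by rw [hA]; ring
    rw [this, e2, ← z2, ← z1] at z4
    linear_combination -z4
  have y2 : (V : ℤ) - 1 = N * (K - 1) := by
    apply mul_left_cancel₀ hlA.ne'
    have e1 : (k : ℤ) - l = (k - a) - (l - a) := by ring
    have e2 : (v : ℤ) - l = (v - a) - (l - a) := by ring
    rw [e1, e2, ← z2, ← z3] at z5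
    linear_combination -z5
  have hKK' : (K : ℤ) = K' :=
    arith y1 y2 z6 hK'2 (by exact_mod_cast hN2) hKpos
  rw [← hKK'] at y1 hK'2 z1
  have yN : (N : ℤ) = K + 1 := by
    apply mul_right_cancel₀ (show (K : ℤ) - 1 ≠ 0 by linarith)
    linear_combination -y1
  have yV : (V : ℤ) = K * K := by rw [yN] at y2; linear_combination y2
  rw [← ha_def, ← hl, ← hk, ← hv]
  refine ⟨K, A, hK'2, hA1, z1.symm, z2.symm, ?_, ?_⟩
  · rw [← z3, yV]
  · intro G hG hGr
    apply mul_right_cancel₀ hKpos.ne'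
    have : ((above M G (s + 2)).card : ℤ) * K = V * N := by exact_mod_cast hdc G hG hGr
    rw [this, yV, yN]; ring

/-- No set of hyperplane size containing a flat of rank `r - 3` can be added to the hyperplane
family. -/
theorem IsPmd.core {s : ℕ} (h : IsPmd M (s + 3) σ) (h0 : σ 0 = 0) (h1 : σ 1 = 1) {B F : Set α}
    (hF : M.IsFlat F) (hFr : M.eRk F = (s : ℕ∞)) (hFB : F ⊆ B) (hBk : B.ncard = σ (s + 2))
    (hbad : ∀ H : Set α, M.IsFlat H → M.eRk H = ((s + 2 : ℕ) : ℕ∞) →
      ∃ i ≤ s + 1, (B ∩ H).ncard = σ i) :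
    False := by
  classical
  obtain ⟨K, A, hK2, hA, z1, z2, z3, z4⟩ := h.core1 hF hFr hFB hBk hbad
  have hE := h.ground
  have huniv : M.IsFlat (univ : Set α) := hE ▸ M.ground_isFlat
  -- the case s = 0
  rcases Nat.eq_zero_or_pos s with hs0 | hs0
  · subst hs0
    have e1 : (σ (0 + 1) : ℤ) - σ 0 = 1 := by
      rw [show 0 + 1 = 1 from rfl, h1, h0]; simp
    rw [e1] at z1
    nlinarith
  obtain ⟨j, rfl⟩ : ∃ j, s = j + 1 := ⟨s - 1, by omega⟩
  obtain ⟨H₁, hH₁f, hFH₁, hH₁r⟩ := exists_flat_ge hE h.rank 2 hF hFr (by omega)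
  have hH₁r' : M.eRk H₁ = ((j + 3 : ℕ) : ℕ∞) := by rw [hH₁r]
  -- a flat of rank j in F
  obtain ⟨F', C, hF', hC, hF'r, hCr, g1, g2, g3, g4⟩ :=
    exists_config hE hF hH₁f hFr hH₁r' hFH₁
  have haa' : σ j < σ (j + 1) := h.lt (by omega) (by omega)
  have hal : σ (j + 1) < σ (j + 2) := h.lt (by omega) (by omega)
  have hlk : σ (j + 2) < σ (j + 3) := h.lt (by omega) (by omega)
  have hkv : σ (j + 3) < σ (j + 4) := h.lt (by omega) (by omega)
  have q1 := h.covers_mul hF' hC hF'r hCr g2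
  have q2 := h.covers_mul hF' hH₁f hF'r hH₁r' (g1.trans hFH₁)
  have q3 := h.covers_mul hF' huniv hF'r h.rank (subset_univ _)
  have q4 : ((above M F' (j + 3)).card : ℤ) * ((covers M F' H₁).card : ℤ) =
      ((covers M F' univ).card : ℤ) * (K * (K + 1)) := by
    have hPn : (((above M F (j + 3)).card : ℕ) : ℤ) = K * (K + 1) := z4 F hF hFr
    have h2 := double_count (M := M) (F := F') (j := j + 3) (K := (covers M F' H₁).card)
      (P := (above M F (j + 3)).card) (by
        intro G hG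
        have hGr := mem_covers_rank hF'r hG
        have h1 := z4 G (mem_covers.1 hG).1 hGr
        have h3 : ((above M G (j + 3)).card : ℤ) = ((above M F (j + 3)).card : ℤ) := by
          rw [hPn]; exact h1
        exact_mod_cast h3) (by
        intro H hH
        obtain ⟨b1, b2, b3⟩ := mem_above.1 hH
        have h1 := h.covers_mul hF' b1 hF'r b2 b3
        rw [← q2] at h1
        exact Nat.eq_of_mul_eq_mul_right (by omega) h1)
    rw [← hPn]
    exact_mod_cast h2
  generalize (covers M F' C).card = Q at q1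
  generalize (covers M F' H₁).card = k' at q2 q4
  generalize (covers M F' univ).card = v' at q3 q4
  generalize (above M F' (j + 3)).card = W at q4
  have z1' : (σ (j + 2) : ℤ) - σ (j + 1) = K * A := z1
  have z2' : (σ (j + 3) : ℤ) - σ (j + 1) = K * ((σ (j + 2) : ℤ) - σ (j + 1)) := z2
  have z3' : (σ (j + 4) : ℤ) - σ (j + 1) = K * K * ((σ (j + 2) : ℤ) - σ (j + 1)) := z3
  clear z1 z2 z3
  have w1 : (Q : ℤ) * ((σ (j + 1) : ℤ) - σ j) = σ (j + 2) - σ j := by
    have := congrArg (Nat.cast : ℕ → ℤ) q1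
    push_cast [Nat.cast_sub haa'.le, Nat.cast_sub (show σ j ≤ σ (j + 2) by omega)] at this
    exact this
  have w2 : (k' : ℤ) * ((σ (j + 1) : ℤ) - σ j) = σ (j + 3) - σ j := by
    have := congrArg (Nat.cast : ℕ → ℤ) q2
    push_cast [Nat.cast_sub haa'.le, Nat.cast_sub (show σ j ≤ σ (j + 3) by omega)] at this
    exact this
  have w3 : (v' : ℤ) * ((σ (j + 1) : ℤ) - σ j) = σ (j + 4) - σ j := by
    have q3' : v' * (σ (j + 1) - σ j) = σ (j + 4) - σ j := q3
    have := congrArg (Nat.cast : ℕ → ℤ) q3'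
    push_cast [Nat.cast_sub haa'.le, Nat.cast_sub (show σ j ≤ σ (j + 4) by omega)] at this
    exact this
  obtain ⟨p, hp⟩ : ∃ p : ℤ, p = (σ (j + 1) : ℤ) - σ j := ⟨_, rfl⟩
  rw [← hp] at w1 w2 w3
  have hp1 : 0 < p := by
    rw [hp]
    have : (σ j : ℤ) < σ (j + 1) := by exact_mod_cast haa'
    linarith
  have w5 : (σ (j + 2) : ℤ) - σ (j + 1) = (Q - 1) * p := by linear_combination -w1 + hp
  have w6 : (k' : ℤ) = K * (Q - 1) + 1 := by
    apply mul_right_cancel₀ hp1.ne'
    linear_combination w2 + z2' + K * w5 - hp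
  have w7 : (v' : ℤ) = K * K * (Q - 1) + 1 := by
    apply mul_right_cancel₀ hp1.ne'
    linear_combination w3 + z3' + K * K * w5 - hp
  have hq0 : (0 : ℤ) < (Q : ℤ) - 1 := by
    have hlA : (0 : ℤ) < (σ (j + 2) : ℤ) - σ (j + 1) := by
      have : (σ (j + 1) : ℤ) < σ (j + 2) := by exact_mod_cast hal
      linarith
    rw [w5] at hlA
    by_contra hneg
    have h3 := mul_nonpos_of_nonpos_of_nonneg (not_lt.1 hneg) hp1.le
    linarith
  have hq1 : (Q : ℤ) - 1 = 1 := by
    apply arith2 (K := K) (W := W) hK2 hq0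
    rw [← w6, ← w7, q4]
  rw [hq1, one_mul] at w5
  -- all smaller differences are one
  have hpone : p = 1 := by
    rcases Nat.eq_zero_or_pos j with hj0 | hj0
    · subst hj0
      rw [hp, show 0 + 1 = 1 from rfl, h1, h0]; simp
    · obtain ⟨i, rfl⟩ : ∃ i, j = i + 1 := ⟨j - 1, by omega⟩
      have e2 : (σ (i + 3) : ℤ) - σ (i + 2) = (σ (i + 2) : ℤ) - σ (i + 1) := by
        rw [← hp]; exact w5
      have e1 : σ (i + 3) - σ (i + 2) = σ (i + 2) - σ (i + 1) := by omega
      have e4 := h.diff_eq_one h0 h1 i (by omega) e1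
      have e5 := h.diff_eq (i := i) (by omega) e1
      rw [e4] at e5
      have e6 : (σ (i + 2) : ℤ) - σ (i + 1) = 1 := by omega
      rw [hp]
      exact e6
  rw [hpone] at w5
  rw [w5] at z1'
  nlinarith

end Pool.Agent.H69.Pmd
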