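import Mathlib
import Pool.Agent.H69.PmdMain

/-!
# Averaging over the hyperplanes containing a flat
-/

open Set

namespace Pool.Agent.H69.Pmd

set_option linter.unusedSectionVars false
set_option maxHeartbeats 1000000

variable {α : Type*} [Fintype α] {M : Matroid α} {r : ℕ} {σ : ℕ → ℕ}

/-- The number of flats of rank `j` containing a flat of rank `i` depends only on `i`, `j`. -/
theorem IsPmd.exists_above (h : IsPmd M r σ) {j : ℕ} (hj : j ≤ r) (d : ℕ) :
    ∀ i, i + d = j → ∃ P : ℕ, 0 < P ∧ ∀ G : Set α, M.IsFlat G → M.eRk G = (i : ℕ∞) →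
      (above M G j).card = P := by
  induction d with
  | zero =>
    intro i hi
    refine ⟨1, one_pos, fun G hG hGr => ?_⟩
    rw [Finset.card_eq_one]
    refine ⟨G, ?_⟩
    ext H
    rw [mem_above, Finset.mem_singleton]
    constructor
    · rintro ⟨h1, h2, h3⟩
      refine (flat_eq_of_subset hG h1 h3 ?_).symm
      rw [h2, hGr]; exact_mod_cast (by omega : j ≤ i)
    · rintro rfl
      exact ⟨hG, by rw [hGr]; exact_mod_cast (by omega : i = j), Subset.rfl⟩
  | succ d ih =>
    intro i hi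
    obtain ⟨P, hP0, hP⟩ := ih (i + 1) (by omega)
    have huniv : M.IsFlat (univ : Set α) := h.ground ▸ M.ground_isFlat
    obtain ⟨G₀, hG₀, hG₀r⟩ := h.exists_flat (i := i) (by omega)
    obtain ⟨H₀, hH₀, hGH₀, hH₀r⟩ := exists_flat_ge h.ground h.rank (d + 1) hG₀ hG₀r (by omega)
    have hH₀r' : M.eRk H₀ = (j : ℕ∞) := by rw [hH₀r]; congr 1
    have hlt1 : σ i < σ (i + 1) := h.lt (by omega) (by omega)
    have hlt2 : σ i < σ j := h.lt (by omega) hj
    have hlt3 : σ i < σ r := h.lt (by omega) le_rfl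
    set K := (covers M G₀ H₀).card with hK
    set V := (covers M G₀ univ).card with hV
    have hK1 : K * (σ (i + 1) - σ i) = σ j - σ i := h.covers_mul hG₀ hH₀ hG₀r hH₀r' hGH₀
    have hV1 : V * (σ (i + 1) - σ i) = σ r - σ i :=
      h.covers_mul hG₀ huniv hG₀r h.rank (subset_univ _)
    have hKpos : 0 < K := by
      rcases Nat.eq_zero_or_pos K with h0 | h0
      · rw [h0] at hK1; omega
      · exact h0
    have hVpos : 0 < V := by
      rcases Nat.eq_zero_or_pos V with h0 | h0
      · rw [h0] at hV1; omega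
      · exact h0
    have key : ∀ G : Set α, M.IsFlat G → M.eRk G = (i : ℕ∞) →
        (above M G j).card * K = V * P := by
      intro G hG hGr
      have hVG : (covers M G univ).card = V := by
        have h1 := h.covers_mul hG huniv hGr h.rank (subset_univ _)
        rw [← hV1] at h1
        exact Nat.eq_of_mul_eq_mul_right (by omega) h1
      rw [← hVG]
      apply double_count
      · intro C hC
        exact hP C (mem_covers.1 hC).1 (mem_covers_rank hGr hC)
      · intro H hH
        obtain ⟨b1, b2, b3⟩ := mem_above.1 hH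
        have h1 := h.covers_mul hG b1 hGr b2 b3
        rw [← hK1] at h1
        exact Nat.eq_of_mul_eq_mul_right (by omega) h1
    refine ⟨(above M G₀ j).card, ?_, fun G hG hGr => ?_⟩
    · rcases Nat.eq_zero_or_pos (above M G₀ j).card with h0 | h0
      · have := key G₀ hG₀ hG₀r
        rw [h0, zero_mul] at this
        have h2 : 0 < V * P := Nat.mul_pos hVpos hP0
        omega
      · exact h0
    · exact Nat.eq_of_mul_eq_mul_right hKpos ((key G hG hGr).trans (key G₀ hG₀ hG₀r).symm)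

/-- Double counting of pairs (point of `B` outside `F`, flat of rank `j` containing `F`). -/
theorem sum_above (hE : M.E = univ) {F : Set α} {i j P : ℕ} (hF : M.IsFlat F)
    (hFr : M.eRk F = (i : ℕ∞))
    (hP : ∀ G : Set α, M.IsFlat G → M.eRk G = ((i + 1 : ℕ) : ℕ∞) → (above M G j).card = P)
    (B : Set α) :
    ∑ H ∈ above M F j, (B ∩ (H \ F)).ncard = (B ∩ (univ \ F)).ncard * P := by
  classical
  have h1 := Finset.sum_card_bipartiteAbove_eq_sum_card_bipartiteBelow
    (s := (B ∩ (univ \ F)).toFinset) (t := above M F j) (fun x H => x ∈ H)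
  have h2 : ∀ x ∈ (B ∩ (univ \ F)).toFinset,
      (Finset.bipartiteAbove (fun x H => x ∈ H) (above M F j) x).card = P := by
    intro x hx
    rw [Set.mem_toFinset] at hx
    have hxF : x ∉ F := hx.2.2
    rw [← hP (M.closure (insert x F)) (M.isFlat_closure _)
      (by rw [eRk_closure_insert hE hF hxF, hFr]; push_cast; rfl)]
    congr 1
    ext H
    simp only [Finset.mem_bipartiteAbove, mem_above]
    constructor
    · rintro ⟨⟨a1, a2, a3⟩, a4⟩
      exact ⟨a1, a2, closure_subset_flat a1 (insert_subset a4 a3)⟩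
    · rintro ⟨a1, a2, a3⟩
      have h3 := (subset_closure' hE (insert x F)).trans a3
      exact ⟨⟨a1, a2, (subset_insert _ _).trans h3⟩, h3 (mem_insert _ _)⟩
  have h3 : ∀ H ∈ above M F j,
      (Finset.bipartiteBelow (fun x H => x ∈ H) (B ∩ (univ \ F)).toFinset H).card =
        (B ∩ (H \ F)).ncard := by
    intro H hH
    rw [Set.ncard_eq_toFinset_card']
    congr 1
    ext x
    simp only [Finset.mem_bipartiteBelow, Set.mem_toFinset, mem_inter_iff, mem_sdiff, mem_univ,
      true_and]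
    tauto
  rw [Finset.sum_congr rfl h2, Finset.sum_congr rfl h3, Finset.sum_const, smul_eq_mul,
    ← Set.ncard_eq_toFinset_card'] at h1
  exact h1.symm

/-- If all hyperplanes on `F` meet `B` in at least `c` points, then
`(c - b) (v - α_i) ≤ (k - b) (k - α_i)` with `b = |B ∩ F|`. -/
theorem IsPmd.avg {s : ℕ} (h : IsPmd M (s + 3) σ) {B F : Set α} {i c : ℕ} (hi : i ≤ s + 1)
    (hF : M.IsFlat F) (hFr : M.eRk F = (i : ℕ∞)) (hBk : B.ncard = σ (s + 2))
    (hc : ∀ H : Set α, M.IsFlat H → M.eRk H = ((s + 2 : ℕ) : ℕ∞) → F ⊆ H →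
      c ≤ (B ∩ H).ncard) :
    ((c : ℤ) - (B ∩ F).ncard) * ((σ (s + 3) : ℤ) - σ i) ≤
      ((σ (s + 2) : ℤ) - (B ∩ F).ncard) * ((σ (s + 2) : ℤ) - σ i) := by
  classical
  have hE := h.ground
  obtain ⟨Q, hQ0, hQ⟩ := h.exists_above (j := s + 2) (by omega) (s + 2 - i) i (by omega)
  obtain ⟨P, hP0, hP⟩ := h.exists_above (j := s + 2) (by omega) (s + 1 - i) (i + 1) (by omega)
  have e1 := sum_above hE hF hFr hP B
  have e2 := sum_above hE hF hFr hP univ
  have hQF := hQ F hF hFr
  obtain ⟨b, hb⟩ : ∃ b, b = (B ∩ F).ncard := ⟨_, rfl⟩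
  have e3 : (B ∩ (univ \ F)).ncard + b = σ (s + 2) := by
    rw [hb, ncard_inter_diff (subset_univ F), inter_univ, hBk]
  have huniv : M.IsFlat (univ : Set α) := hE ▸ M.ground_isFlat
  have e4 : ((univ : Set α) ∩ (univ \ F)).ncard + σ i = σ (s + 3) := by
    have := ncard_inter_diff (B := univ) (subset_univ F)
    rw [univ_inter, univ_inter, univ_inter, h.size F i hF hFr,
      h.size univ (s + 3) huniv h.rank] at this
    rw [univ_inter]; exact this
  have e5 : ∀ H ∈ above M F (s + 2), ((univ : Set α) ∩ (H \ F)).ncard = σ (s + 2) - σ i := by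
    intro H hH
    obtain ⟨a1, a2, a3⟩ := mem_above.1 hH
    have := ncard_inter_diff (B := univ) a3
    rw [univ_inter, univ_inter, univ_inter, h.size F i hF hFr, h.size H (s + 2) a1 a2] at this
    rw [univ_inter]; omega
  rw [Finset.sum_congr rfl e5, Finset.sum_const, smul_eq_mul, hQF] at e2
  have hik : σ i < σ (s + 2) := h.lt (by omega) (by omega)
  have hkv : σ (s + 2) < σ (s + 3) := h.lt (by omega) (by omega)
  have e6 : (Q : ℤ) * ((c : ℤ) - b) ≤ ((σ (s + 2) : ℤ) - b) * P := by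
    have h1 : ∀ H ∈ above M F (s + 2), (c : ℤ) - b ≤ (((B ∩ (H \ F)).ncard : ℕ) : ℤ) := by
      intro H hH
      obtain ⟨a1, a2, a3⟩ := mem_above.1 hH
      have h2 := ncard_inter_diff (B := B) a3
      have h3 := hc H a1 a2 a3
      rw [← hb] at h2
      omega
    have h2 := Finset.card_nsmul_le_sum _ _ _ h1
    rw [hQF, nsmul_eq_mul] at h2
    have h3 : (∑ H ∈ above M F (s + 2), (((B ∩ (H \ F)).ncard : ℕ) : ℤ)) =
        ((B ∩ (univ \ F)).ncard : ℤ) * P := by
      rw [← Nat.cast_sum, e1]; push_cast; rfl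
    rw [h3] at h2
    have h4 : ((B ∩ (univ \ F)).ncard : ℤ) = (σ (s + 2) : ℤ) - b := by
      have : (((B ∩ (univ \ F)).ncard + b : ℕ) : ℤ) = σ (s + 2) := by exact_mod_cast e3
      push_cast at this
      linarith
    rw [h4] at h2
    exact h2
  have e7 : (Q : ℤ) * ((σ (s + 2) : ℤ) - σ i) = ((σ (s + 3) : ℤ) - σ i) * P := by
    have h1 : ((Q * (σ (s + 2) - σ i) : ℕ) : ℤ) =
        ((((univ : Set α) ∩ (univ \ F)).ncard * P : ℕ) : ℤ) := by exact_mod_cast e2
    have h2 : ((((univ : Set α) ∩ (univ \ F)).ncard : ℕ) : ℤ) = (σ (s + 3) : ℤ) - σ i := by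
      have : ((((univ : Set α) ∩ (univ \ F)).ncard + σ i : ℕ) : ℤ) = σ (s + 3) := by
        exact_mod_cast e4
      push_cast at this
      linarith
    push_cast [Nat.cast_sub hik.le] at h1
    rw [← h2]
    exact h1
  rw [← hb]
  have hPpos : (0 : ℤ) < P := by exact_mod_cast hP0
  have hki : (0 : ℤ) < (σ (s + 2) : ℤ) - σ i := by
    have : (σ i : ℤ) < σ (s + 2) := by exact_mod_cast hik
    linarith
  -- multiply e6 by (k - α_i)
  have e8 : (Q : ℤ) * ((c : ℤ) - b) * ((σ (s + 2) : ℤ) - σ i) ≤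
      ((σ (s + 2) : ℤ) - b) * P * ((σ (s + 2) : ℤ) - σ i) :=
    mul_le_mul_of_nonneg_right e6 hki.le
  have e9 : (P : ℤ) * (((c : ℤ) - b) * ((σ (s + 3) : ℤ) - σ i)) ≤
      (P : ℤ) * (((σ (s + 2) : ℤ) - b) * ((σ (s + 2) : ℤ) - σ i)) := by
    have h1 : (Q : ℤ) * ((c : ℤ) - b) * ((σ (s + 2) : ℤ) - σ i) =
        (P : ℤ) * (((c : ℤ) - b) * ((σ (s + 3) : ℤ) - σ i)) := by
      linear_combination ((c : ℤ) - b) * e7
    rw [← h1]
    linarith [e8]
  exact le_of_mul_le_mul_left e9 hPpos

end Pool.Agent.H69.Pmd
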