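import Mathlib
import Pool.Agent.H69.PmdAvg

/-!
# A bound for sets that can be added to the hyperplane family of a perfect matroid design
-/

open Set

namespace Pool.Agent.H69.Pmd

set_option linter.unusedSectionVars false
set_option maxHeartbeats 1000000

variable {α : Type*} [Fintype α] {M : Matroid α} {r : ℕ} {σ : ℕ → ℕ}

/-- Differences of the sizes are nondecreasing. -/
theorem IsPmd.diff_le (h : IsPmd M r σ) {j : ℕ} (hj : j + 2 ≤ r) :
    (σ (j + 1) : ℤ) - σ j ≤ (σ (j + 2) : ℤ) - σ (j + 1) := by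
  obtain ⟨F, hF, hFr⟩ := h.exists_flat (i := j) (by omega)
  obtain ⟨C, hC, hFC, hCr⟩ := exists_flat_ge h.ground h.rank 2 hF hFr (by omega)
  have h1 := h.covers_mul hF hC hFr hCr hFC
  have l1 := h.lt (show j < j + 1 by omega) (by omega)
  have l2 := h.lt (show j + 1 < j + 2 by omega) (by omega)
  generalize (covers M F C).card = K at h1
  have hK : 2 ≤ K := by
    by_contra hcon
    have : K ≤ 1 := by omega
    have : K * (σ (j + 1) - σ j) ≤ 1 * (σ (j + 1) - σ j) := Nat.mul_le_mul_right _ this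
    omega
  have h2 : 2 * (σ (j + 1) - σ j) ≤ K * (σ (j + 1) - σ j) := Nat.mul_le_mul_right _ hK
  omega

/-- Every flat of rank `i` spanned by points of `B` is contained in `B`. -/
def Full (M : Matroid α) (B : Set α) (i : ℕ) : Prop :=
  ∀ F : Set α, M.IsFlat F → M.eRk F = (i : ℕ∞) → F ⊆ M.closure (B ∩ F) → F ⊆ B

theorem exists_full_sub (hE : M.E = univ) {B F : Set α} {j : ℕ} (hfull : Full M B j)
    (hF : M.IsFlat F) (hFr : M.eRk F = ((j + 1 : ℕ) : ℕ∞)) (hsp : F ⊆ M.closure (B ∩ F)) :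
    ∃ G x, M.IsFlat G ∧ M.eRk G = (j : ℕ∞) ∧ G ⊆ F ∧ G ⊆ B ∧ x ∈ B ∧ x ∈ F ∧ x ∉ G := by
  obtain ⟨I, hI⟩ := M.exists_isBasis (B ∩ F) (by simp [hE])
  have hr : M.eRk (B ∩ F) = ((j + 1 : ℕ) : ℕ∞) := by
    apply le_antisymm
    · rw [← hFr]; exact M.eRk_mono inter_subset_right
    · rw [← hFr]
      exact (M.eRk_mono hsp).trans (by rw [Matroid.eRk_closure_eq])
  have hIn : I.ncard = j + 1 := by
    have h1 := hI.encard_eq_eRk
    rw [hr, ← (Set.toFinite I).cast_ncard_eq] at h1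
    exact_mod_cast h1
  obtain ⟨x, hx⟩ : I.Nonempty := by
    rw [← Set.ncard_pos (Set.toFinite _), hIn]; omega
  have hsub : I \ {x} ⊆ B ∩ F := sdiff_subset.trans hI.subset
  have hGF : M.closure (I \ {x}) ⊆ F := closure_subset_flat hF (hsub.trans inter_subset_right)
  have hGr : M.eRk (M.closure (I \ {x})) = (j : ℕ∞) := by
    rw [Matroid.eRk_closure_eq, (hI.indep.subset sdiff_subset).eRk_eq_encard,
      ← (Set.toFinite _).cast_ncard_eq, Set.ncard_sdiff_singleton_of_mem hx, hIn]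
    rfl
  refine ⟨M.closure (I \ {x}), x, M.isFlat_closure _, hGr, hGF, ?_, (hI.subset hx).1,
    (hI.subset hx).2, hI.indep.notMem_closure_sdiff_of_mem hx⟩
  apply hfull _ (M.isFlat_closure _) hGr
  exact M.closure_subset_closure (subset_inter (hsub.trans inter_subset_left)
    (subset_closure' hE _))

section

variable {s : ℕ} {B : Set α}

/-- The inequality for flats spanned by points of `B`. -/
theorem IsPmd.spanned_bound (h : IsPmd M (s + 3) σ) {F : Set α} {j : ℕ}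
    (hBk : B.ncard = σ (s + 2))
    (hbad : ∀ H : Set α, M.IsFlat H → M.eRk H = ((s + 2 : ℕ) : ℕ∞) →
      ∃ i ≤ s + 1, (B ∩ H).ncard = σ i)
    (hj : j + 1 ≤ s) (hfull : Full M B j) (hF : M.IsFlat F)
    (hFr : M.eRk F = ((j + 1 : ℕ) : ℕ∞)) (hsp : F ⊆ M.closure (B ∩ F)) :
    σ j + 1 ≤ (B ∩ F).ncard ∧
    ((σ (j + 1) : ℤ) - (B ∩ F).ncard) * ((σ (s + 3) : ℤ) - σ (s + 2)) ≤
      ((σ (s + 2) : ℤ) - σ (j + 1)) ^ 2 := by
  have hE := h.ground
  obtain ⟨G, x, hG, hGr, hGF, hGB, hxB, hxF, hxG⟩ := exists_full_sub hE hfull hF hFr hsp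
  have hb : σ j + 1 ≤ (B ∩ F).ncard := by
    rw [← h.size G j hG hGr, ← Set.ncard_insert_of_notMem hxG (Set.toFinite _)]
    apply Set.ncard_le_ncard _ (Set.toFinite _)
    exact insert_subset ⟨hxB, hxF⟩ (subset_inter hGB hGF)
  refine ⟨hb, ?_⟩
  have h1 := h.avg (B := B) (F := F) (i := j + 1) (c := σ (j + 1)) (by omega) hF hFr hBk (by
    intro H hH hHr hFH
    obtain ⟨t, ht, hc⟩ := hbad H hH hHr
    have h2 : (B ∩ F).ncard ≤ (B ∩ H).ncard :=
      Set.ncard_le_ncard (inter_subset_inter_right _ hFH) (Set.toFinite _)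
    rw [hc] at h2 ⊢
    apply h.le _ (by omega)
    by_contra hlt
    have := h.le (show t ≤ j by omega) (by omega)
    omega)
  linarith [h1]

/-- The bound. -/
theorem IsPmd.bad_bound (h : IsPmd M (s + 3) σ) (h0 : σ 0 = 0) (h1 : σ 1 = 1)
    (hBk : B.ncard = σ (s + 2)) (hrB : (s : ℕ∞) ≤ M.eRk B)
    (hbad : ∀ H : Set α, M.IsFlat H → M.eRk H = ((s + 2 : ℕ) : ℕ∞) →
      ∃ i ≤ s + 1, (B ∩ H).ncard = σ i) :
    ∃ j, 1 ≤ j ∧ j + 1 ≤ s ∧ σ j + 2 ≤ σ (j + 1) ∧
      ((σ (j + 1) : ℤ) - σ j) * ((σ (s + 3) : ℤ) - σ (s + 2)) ≤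
        2 * ((σ (s + 2) : ℤ) - σ (j + 1)) ^ 2 := by
  classical
  have hE := h.ground
  have hfull0 : Full M B 0 := by
    intro F hF hFr _
    have h2 := h.size F 0 hF hFr
    rw [h0] at h2
    rw [(Set.ncard_eq_zero (Set.toFinite _)).1 h2]
    exact empty_subset _
  have hfull1 : Full M B 1 := by
    intro F hF hFr hsp
    have h2 := h.size F 1 hF hFr
    rw [h1] at h2
    obtain ⟨y, rfl⟩ := Set.ncard_eq_one.1 h2
    rw [singleton_subset_iff]
    by_contra hy
    have h3 : B ∩ {y} = ∅ := by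
      ext z
      simp only [mem_inter_iff, mem_singleton_iff, mem_empty_iff_false, iff_false, not_and]
      rintro hz rfl
      exact hy hz
    rw [h3] at hsp
    have h4 := h.size (M.closure ∅) 0 (M.isFlat_closure _) (by simp)
    rw [h0] at h4
    rw [(Set.ncard_eq_zero (Set.toFinite _)).1 h4] at hsp
    exact hsp rfl
  have hnot : ¬ Full M B s := by
    intro hfull
    obtain ⟨J, hJB, hJ, hJc⟩ := Matroid.le_eRk_iff.1 hrB
    have hr : M.eRk (M.closure J) = (s : ℕ∞) := by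
      rw [Matroid.eRk_closure_eq, hJ.eRk_eq_encard, hJc]
    have hsub : M.closure J ⊆ B := hfull _ (M.isFlat_closure _) hr
      (M.closure_subset_closure (subset_inter hJB (subset_closure' hE _)))
    exact h.core h0 h1 (M.isFlat_closure J) hr hsub hBk hbad
  have hex : ∃ i, ¬ Full M B i := ⟨s, hnot⟩
  set i := Nat.find hex with hi
  have hi1 : ¬ Full M B i := Nat.find_spec hex
  have hi2 : ∀ m < i, Full M B m := fun m hm => by
    by_contra hcon
    exact Nat.find_min hex hm hcon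
  have his : i ≤ s := Nat.find_min' hex hnot
  have hi3 : 2 ≤ i := by
    by_contra hcon
    have : i = 0 ∨ i = 1 := by omega
    rcases this with h' | h'
    · rw [h'] at hi1; exact hi1 hfull0
    · rw [h'] at hi1; exact hi1 hfull1
  obtain ⟨j, hj⟩ : ∃ j, i = j + 1 := ⟨i - 1, by omega⟩
  have hfj : Full M B j := hi2 j (by omega)
  rw [hj] at hi1
  simp only [Full, not_forall, exists_prop] at hi1
  obtain ⟨F, hF, hFr, hsp, hFB⟩ := hi1
  have hjs : j + 1 ≤ s := by omega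
  obtain ⟨hb1, hb2⟩ := h.spanned_bound hBk hbad hjs hfj hF hFr hsp
  have hFn := h.size F (j + 1) hF hFr
  have hb3 : (B ∩ F).ncard < σ (j + 1) := by
    rw [← hFn]
    apply Set.ncard_lt_ncard _ (Set.toFinite _)
    exact ⟨inter_subset_right, fun hsub => hFB (hsub.trans inter_subset_left)⟩
  refine ⟨j, by omega, hjs, by omega, ?_⟩
  by_contra hcon
  rw [not_le] at hcon
  have hkv : (0 : ℤ) < (σ (s + 3) : ℤ) - σ (s + 2) := by
    have := h.lt (show s + 2 < s + 3 by omega) (by omega)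
    have : (σ (s + 2) : ℤ) < σ (s + 3) := by exact_mod_cast this
    linarith
  have hik : (0 : ℤ) < (σ (s + 2) : ℤ) - σ (j + 1) := by
    have := h.lt (show j + 1 < s + 2 by omega) (by omega)
    have : (σ (j + 1) : ℤ) < σ (s + 2) := by exact_mod_cast this
    linarith
  -- a hyperplane with exactly α_{j+1} points of B
  obtain ⟨H, hH, hHr, hFH, hHc⟩ : ∃ H, M.IsFlat H ∧ M.eRk H = ((s + 2 : ℕ) : ℕ∞) ∧ F ⊆ H ∧
      (B ∩ H).ncard = σ (j + 1) := by
    by_contra hno
    push Not at hno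
    have h2 := h.avg (B := B) (F := F) (i := j + 1) (c := σ (j + 2)) (by omega) hF hFr hBk (by
      intro H hH hHr hFH
      obtain ⟨t, ht, hc⟩ := hbad H hH hHr
      have h2 : (B ∩ F).ncard ≤ (B ∩ H).ncard :=
        Set.ncard_le_ncard (inter_subset_inter_right _ hFH) (Set.toFinite _)
      have h3 := hno H hH hHr hFH
      rw [hc] at h2 h3 ⊢
      apply h.le _ (by omega)
      by_contra hlt
      have hne : t ≠ j + 1 := fun hh => h3 (by rw [hh])
      have := h.le (show t ≤ j by omega) (by omega)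
      omega)
    have h3 := h.diff_le (j := j) (by omega)
    have h4 : σ (j + 1) < σ (j + 2) := h.lt (by omega) (by omega)
    have h4' : (σ (j + 1) : ℤ) < σ (j + 2) := by exact_mod_cast h4
    have h5 : σ (j + 2) ≤ σ (s + 2) := h.le (by omega) (by omega)
    have h5' : (σ (j + 2) : ℤ) ≤ σ (s + 2) := by exact_mod_cast h5
    have hb3' : ((B ∩ F).ncard : ℤ) < σ (j + 1) := by exact_mod_cast hb3
    have h6 : ((σ (j + 2) : ℤ) - (B ∩ F).ncard) * ((σ (s + 3) : ℤ) - σ (s + 2)) ≤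
        ((σ (s + 2) : ℤ) - σ (j + 2)) * ((σ (s + 2) : ℤ) - σ (j + 1)) := by
      linarith [h2]
    have h7 : ((σ (s + 2) : ℤ) - σ (j + 2)) * ((σ (s + 2) : ℤ) - σ (j + 1)) ≤
        ((σ (s + 2) : ℤ) - σ (j + 1)) ^ 2 := by
      rw [sq]
      exact mul_le_mul_of_nonneg_right (by linarith) hik.le
    have h8 : ((σ (j + 1) : ℤ) - σ j) * ((σ (s + 3) : ℤ) - σ (s + 2)) ≤
        ((σ (j + 2) : ℤ) - (B ∩ F).ncard) * ((σ (s + 3) : ℤ) - σ (s + 2)) :=
      mul_le_mul_of_nonneg_right (by linarith) hkv.le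
    have h9 : (0 : ℤ) ≤ ((σ (s + 2) : ℤ) - σ (j + 1)) ^ 2 := sq_nonneg _
    linarith
  obtain ⟨G, x, hG, hGr, hGF, hGB, hxB, hxF, hxG⟩ := exists_full_sub hE hfj hF hFr hsp
  obtain ⟨z, ⟨hzB, hzH⟩, hzF⟩ : ∃ z ∈ B ∩ H, z ∉ F := by
    by_contra hno
    push Not at hno
    have h2 : B ∩ H ⊆ B ∩ F := fun z hz => ⟨hz.1, hno z hz⟩
    have h3 := Set.ncard_le_ncard h2 (Set.toFinite _)
    omega
  have hzG : z ∉ G := fun hz => hzF (hGF hz)
  set F' : Set α := M.closure (insert z G) with hF'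
  have hF'f : M.IsFlat F' := M.isFlat_closure _
  have hF'r : M.eRk F' = ((j + 1 : ℕ) : ℕ∞) := by
    rw [hF', eRk_closure_insert hE hG hzG, hGr]; push_cast; rfl
  have hsubF' : insert z G ⊆ F' := subset_closure' hE _
  have hF'H : F' ⊆ H := closure_subset_flat hH (insert_subset hzH (hGF.trans hFH))
  have hsp' : F' ⊆ M.closure (B ∩ F') :=
    M.closure_subset_closure (subset_inter (insert_subset hzB hGB) hsubF')
  obtain ⟨hb1', hb2'⟩ := h.spanned_bound hBk hbad hjs hfj hF'f hF'r hsp'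
  -- F' ∩ F = G
  have hinter : G = F' ∩ F := by
    have hfl := isFlat_inter hE hF'f hF
    have hGsub : G ⊆ F' ∩ F := subset_inter ((subset_insert _ _).trans hsubF') hGF
    apply flat_eq_of_subset hG hfl hGsub
    obtain ⟨t, ht⟩ := ENat.ne_top_iff_exists.1 (eRk_lt_top M (F' ∩ F)).ne
    rw [← ht, hGr]
    have : t ≤ j := by
      by_contra hlt
      have h2 := flat_eq_of_subset hfl hF'f inter_subset_left (by
        rw [hF'r, ← ht]; exact_mod_cast (by omega : j + 1 ≤ t))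
      have h3 : F' ⊆ F := by rw [← h2]; exact inter_subset_right
      exact hzF (h3 (hsubF' (mem_insert _ _)))
    exact_mod_cast this
  have hsum : (B ∩ F').ncard + (B ∩ F).ncard ≤ σ (j + 1) + σ j := by
    have h2 := Set.ncard_union_add_ncard_inter (B ∩ F') (B ∩ F) (Set.toFinite _) (Set.toFinite _)
    have h3 : (B ∩ F') ∪ (B ∩ F) ⊆ B ∩ H := union_subset
      (inter_subset_inter_right _ hF'H) (inter_subset_inter_right _ hFH)
    have h4 := Set.ncard_le_ncard h3 (Set.toFinite _)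
    have h5 : (B ∩ F') ∩ (B ∩ F) ⊆ G := by
      rintro y ⟨⟨_, hy1⟩, ⟨_, hy2⟩⟩
      rw [hinter]; exact ⟨hy1, hy2⟩
    have h6 := Set.ncard_le_ncard h5 (Set.toFinite _)
    rw [h.size G j hG hGr] at h6
    omega
  have hsum' : ((B ∩ F').ncard : ℤ) + (B ∩ F).ncard ≤ σ (j + 1) + σ j := by exact_mod_cast hsum
  have h2 : ((σ (j + 1) : ℤ) - σ j) * ((σ (s + 3) : ℤ) - σ (s + 2)) ≤
      (((σ (j + 1) : ℤ) - (B ∩ F).ncard) + ((σ (j + 1) : ℤ) - (B ∩ F').ncard)) *
        ((σ (s + 3) : ℤ) - σ (s + 2)) :=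
    mul_le_mul_of_nonneg_right (by linarith) hkv.le
  linarith

end

end Pool.Agent.H69.Pmd
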