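import Mathlib

/-!
# Leafwise complex cycles: definitions

Currents, cone structures, `C`-currents, pseudoholomorphic curves and superpositions, on the
manifold `M = F × T` (a product of a complex and a real normed space, `F = ℂⁿ` and `T = ℝᵏ` in the
application) foliated by the leaves `F × {t}`, with the leafwise complex structure
`J (v, 0) = (i v, 0)`.

* Differential `p`-forms on an open set `U` with compact support: Mathlib's space `𝓓(U, Λᵖ)` of
  smooth compactly supported functions with its canonical LF topology.
* A `p`-current on `U` is a continuous linear functional on that space.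
* `∂ c (α) = c (dα)` with Mathlib's exterior derivative `extDeriv`.
-/

open MeasureTheory TopologicalSpace Set Filter
open scoped Manifold ContDiff Distributions Topology NNReal

namespace Pool.Agent.H69.Ghys

section General

variable {E : Type} [NormedAddCommGroup E] [NormedSpace ℝ E]

/-- The space of smooth compactly supported `p`-forms on the open set `U` of `E`. -/
abbrev TestForm (U : Opens E) (p : ℕ) : Type := 𝓓(U, E [⋀^Fin p]→L[ℝ] ℝ)

/-- A `p`-current on the open set `U` of `E`: a continuous linear functional on the space of smooth
compactly supported `p`-forms on `U`. -/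
abbrev Current (U : Opens E) (p : ℕ) : Type := TestForm U p →L[ℝ] ℝ

variable (E) in
/-- The whole manifold `E`, as an open set. -/
abbrev whole : Opens E := ⊤

theorem dTest_contDiff {U : Opens E} {p : ℕ} (β : TestForm U p) :
    ContDiff ℝ ((⊤ : ℕ∞) : WithTop ℕ∞) (extDeriv β) :=
  (ContinuousAlternatingMap.alternatizeUncurryFinCLM ℝ E ℝ).contDiff.comp
    (β.contDiff.fderiv_right (mod_cast le_top))

theorem dTest_compact {U : Opens E} {p : ℕ} (β : TestForm U p) :
    HasCompactSupport (extDeriv β) :=
  (β.hasCompactSupport.fderiv ℝ).comp_left
    (g := ContinuousAlternatingMap.alternatizeUncurryFinCLM ℝ E ℝ) (map_zero _)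

theorem dTest_tsupport {U : Opens E} {p : ℕ} (β : TestForm U p) : tsupport (extDeriv β) ⊆ U :=
  (tsupport_comp_subset
    (g := ContinuousAlternatingMap.alternatizeUncurryFinCLM ℝ E ℝ) (map_zero _) _).trans
      ((tsupport_fderiv_subset ℝ).trans β.tsupport_subset)

/-- The exterior derivative of a smooth compactly supported `p`-form. -/
noncomputable def dTest {U : Opens E} {p : ℕ} (β : TestForm U p) : TestForm U (p + 1) :=
  ⟨extDeriv β, dTest_contDiff β, dTest_compact β, dTest_tsupport β⟩

/-- A current on `E` is a cycle if its boundary `β ↦ c (dβ)` vanishes. -/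
def IsCycle {p : ℕ} (c : Current (whole E) (p + 1)) : Prop :=
  ∀ β : TestForm (whole E) p, c (dTest β) = 0

variable (E) in
/-- The space `Λ² E` of 2-vectors, identified with the dual of the space of alternating
2-forms. -/
abbrev TwoVector : Type := (E [⋀^Fin 2]→L[ℝ] ℝ) →L[ℝ] ℝ

/-- The 2-vector `v ∧ w ∈ Λ² E`, which evaluates forms: `α ↦ α (v, w)`. -/
noncomputable def wedge (v w : E) : TwoVector E := ContinuousAlternatingMap.apply ℝ _ ℝ ![v, w]

theorem dirac_cont (y : E) (w : TwoVector E) :
    Continuous fun α : TestForm (whole E) 2 => w (α y) := by
  have : Continuous fun α : TestForm (whole E) 2 => α y := by fun_prop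
  exact w.continuous.comp this

/-- The Dirac current `α ↦ α_y (w)` of a 2-vector `w` at the point `y`. -/
noncomputable def dirac (y : E) (w : TwoVector E) : Current (whole E) 2 :=
  ⟨⟨⟨fun α => w (α y), fun α β => w.map_add (α y) (β y)⟩, fun r α => w.map_smul r (α y)⟩,
    dirac_cont y w⟩

/-- The closed convex cone generated by a set of 2-vectors: the closure of the set of finite
nonnegative combinations. -/
noncomputable def closedConeOfVectors (s : Set (TwoVector E)) : Set (TwoVector E) :=
  closure (Submodule.span ℝ≥0 s)

/-- The closed convex cone generated by a set of 2-currents: the closure of the set of finite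
nonnegative combinations, for the (strong) topology of uniform convergence on bounded sets. -/
noncomputable def closedConeOfCurrents (s : Set (Current (whole E) 2)) :
    Set (Current (whole E) 2) :=
  closure (Submodule.span ℝ≥0 s)

/-- The set of `C`-currents of a field `C` of cones of 2-vectors: the closed convex cone
generated by the Dirac currents of elements of `C`. -/
noncomputable def CCurrents (C : E → Set (TwoVector E)) : Set (Current (whole E) 2) :=
  closedConeOfCurrents {c | ∃ y : E, ∃ w ∈ C y, c = dirac y w}

/-- Extension by zero of a compactly supported form on `U` to `E`. -/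
noncomputable def extendByZero {U : Opens E} {p : ℕ} (α : TestForm U p) :
    TestForm (whole E) p :=
  ⟨α, α.contDiff, α.hasCompactSupport, subset_univ _⟩

end General

section Leafwise

variable {F T : Type} [NormedAddCommGroup F] [NormedSpace ℂ F] [NormedSpace ℝ F]
  [NormedAddCommGroup T] [NormedSpace ℝ T]

variable (F T) in
/-- The structure cone `C_y ⊆ Λ² T_y M` of the leafwise complex structure `J (v, 0) = (i v, 0)`:
the closed convex cone generated by the `v ∧ J v` with `v` tangent to the leaf. -/
noncomputable def structureCone : F × T → Set (TwoVector (F × T)) := fun _ =>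
  closedConeOfVectors {w | ∃ v : F, w = wedge ((v, 0) : F × T) (Complex.I • v, 0)}

/-- A pseudoholomorphic curve in `U`: a proper, somewhere injective map `p ↦ (u p, t)` into `U`
from a connected Riemann surface `S`, with image in the leaf `F × {t}` and `u` holomorphic. -/
structure PHCurve (U : Opens (F × T)) where
  /-- the Riemann surface -/
  S : Type
  [top : TopologicalSpace S]
  [t2 : T2Space S]
  [sc : SecondCountableTopology S]
  [conn : ConnectedSpace S]
  [cs : ChartedSpace ℂ S]
  [mfd : IsManifold 𝓘(ℂ) ω S]
  /-- the component of the map along the leaf -/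
  u : S → F
  /-- the leaf -/
  t : T
  mem : ∀ p, (u p, t) ∈ U
  hol : MDifferentiable 𝓘(ℂ) 𝓘(ℂ, F) u
  proper : IsProperMap (fun p => (⟨(u p, t), mem p⟩ : U))
  somewhereInj : ∃ p, u ⁻¹' {u p} = {p} ∧ mfderiv 𝓘(ℂ) 𝓘(ℂ, F) u p ≠ 0

attribute [instance] PHCurve.top PHCurve.t2 PHCurve.sc PHCurve.conn PHCurve.cs PHCurve.mfd

namespace PHCurve

variable {U : Opens (F × T)} (C : PHCurve U)

/-- The map of the curve read in the chart of the Riemann surface at `p`. -/
noncomputable def inChart (p : C.S) (z : ℂ) : F × T := (C.u ((chartAt ℂ p).symm z), C.t)

/-- The coefficient of the pulled back form `u^* α` with respect to `dx ∧ dy` in the chart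
at `p`. -/
noncomputable def density (p : C.S) (α : TestForm U 2) (z : ℂ) : ℝ :=
  α (C.inChart p z) ![fderiv ℝ (C.inChart p) z 1, fderiv ℝ (C.inChart p) z Complex.I]

/-- The image in the chart at `s j` of the part of its domain which is not covered by the domains
of the charts at `s i`, `i < j`. -/
def piece (s : ℕ → C.S) (j : ℕ) : Set ℂ :=
  (chartAt ℂ (s j)) '' ((chartAt ℂ (s j)).source \ ⋃ i < j, (chartAt ℂ (s i)).source)

/-- `c` is the current of integration `α ↦ ∫_S u^* α`: for some countable family of charts
covering `S`, with the associated partition of `S`, the integral of `u^* α` over `S` is the sum of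
the (absolutely convergent) integrals over the pieces. -/
def IsIntegrationCurrent (c : Current U 2) : Prop :=
  ∃ s : ℕ → C.S, (⋃ j, (chartAt ℂ (s j)).source) = univ ∧
    ∀ α : TestForm U 2, (∀ j, IntegrableOn (C.density (s j) α) (C.piece s j)) ∧
      HasSum (fun j => ∫ z in C.piece s j, C.density (s j) α z) (c α)

end PHCurve

/-- The set `𝒫_U` of pseudoholomorphic curves in `U`, viewed as 2-currents on `U`. -/
def PU (U : Opens (F × T)) : Set (Current U 2) := {c | ∃ C : PHCurve U, C.IsIntegrationCurrent c}

/-- On `U` the current `c` is a nonnegative superposition of pseudoholomorphic curves: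
there is a measure `ν` on `𝒫_U` (for some sigma-algebra) such that `c (α) = ∫ c' (α) dν (c')` for
all smooth 2-forms `α` with compact support in `U`. -/
def IsSuperposition (c : Current (whole (F × T)) 2) (U : Opens (F × T)) : Prop :=
  ∃ (m : MeasurableSpace (PU U)) (ν : @Measure (PU U) m), ∀ α : TestForm U 2,
    Integrable (fun c' : PU U => (c' : Current U 2) α) ν ∧
      c (extendByZero α) = ∫ c' : PU U, (c' : Current U 2) α ∂ν

variable (F T) in
/-- The affirmative answer to the question for the foliated manifold `F × T`: every `C`-cycle is,
in a neighbourhood of each point, a nonnegative superposition of pseudoholomorphic curves. -/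
def CyclesAreLocalSuperpositions : Prop :=
  ∀ c ∈ CCurrents (structureCone F T), IsCycle c →
    ∀ x : F × T, ∃ U : Opens (F × T), x ∈ U ∧ IsSuperposition c U

end Leafwise

end Pool.Agent.H69.Ghys
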