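import Mathlib
import Pool.Agent.H69.GhysDefs

/-!
# Leafwise complex cycles: the tropical line current is not a local superposition of
pseudoholomorphic curves

The counterexample is the sum of three half hyperplanes
`{s a + i (σ e₀ + τ e₁) : s > 0}` for `a = -e₁, -e₀, e₀ + e₁`, each of them foliated by the
half lines `{ζ a + const : Re ζ > 0}`, i.e. `ddᶜ max (0, Re z₀, Re z₁)` on `ℂ²`, placed in the leaf
`t = 0`. The three directions add up to zero, so the current is closed.
Any local superposition of pseudoholomorphic curves equal to it would be carried by curves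
contained in the support of the current; but near the origin such a curve would be
a piece of a complex line, proper in the neighbourhood, which has to leave the support.
-/

open MeasureTheory TopologicalSpace Set Filter
open scoped Manifold ContDiff Distributions Topology NNReal BoundedContinuousFunction

namespace Pool.Agent.H69.Ghys

/-- The manifold `M = ℂⁿ × ℝᵏ`. The leaves of the foliation are the sets `ℂⁿ × {t}`. -/
abbrev Amb (n k : ℕ) : Type := (Fin n → ℂ) × (Fin k → ℝ)

/-- Alternating real `p`-forms on the tangent space `T_y M = ℂⁿ × ℝᵏ`. -/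
abbrev Form (n k p : ℕ) : Type := Amb n k [⋀^Fin p]→L[ℝ] ℝ

variable {n k : ℕ}

theorem wedge_apply (v w : Amb n k) (α : Form n k 2) : wedge v w α = α ![v, w] := rfl

/-! ## Proof -/

section

section RS

variable {S : Type} [TopologicalSpace S] [ChartedSpace ℂ S] [IsManifold 𝓘(ℂ) ω S]
  {F : Type*} [NormedAddCommGroup F] [NormedSpace ℂ F]

theorem hol_chart {f : S → F} (hf : MDifferentiable 𝓘(ℂ) 𝓘(ℂ, F) f) (p : S) :
    DifferentiableOn ℂ (fun z => f ((chartAt ℂ p).symm z)) (chartAt ℂ p).target := by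
  have : IsManifold 𝓘(ℂ) 1 S := IsManifold.of_le (n := ω) le_top
  have h1 : MDifferentiableOn 𝓘(ℂ) 𝓘(ℂ) (chartAt ℂ p).symm (chartAt ℂ p).target :=
    mdifferentiableOn_atlas_symm (chart_mem_atlas ℂ p)
  have h2 : MDifferentiableOn 𝓘(ℂ) 𝓘(ℂ, F) (f ∘ (chartAt ℂ p).symm) (chartAt ℂ p).target :=
    fun z hz => (hf _).comp_mdifferentiableWithinAt z (h1 z hz)
  exact mdifferentiableOn_iff_differentiableOn.1 h2

theorem trans_chart (p q : S) :
    DifferentiableOn ℂ (fun z => (chartAt ℂ q) ((chartAt ℂ p).symm z))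
      ((chartAt ℂ p).target ∩ (chartAt ℂ p).symm ⁻¹' (chartAt ℂ q).source) := by
  have : IsManifold 𝓘(ℂ) 1 S := IsManifold.of_le (n := ω) le_top
  have h1 : MDifferentiableOn 𝓘(ℂ) 𝓘(ℂ) (chartAt ℂ p).symm (chartAt ℂ p).target :=
    mdifferentiableOn_atlas_symm (chart_mem_atlas ℂ p)
  have h3 : MDifferentiableOn 𝓘(ℂ) 𝓘(ℂ) (chartAt ℂ q) (chartAt ℂ q).source :=
    mdifferentiableOn_atlas (chart_mem_atlas ℂ q)
  have h2 : MDifferentiableOn 𝓘(ℂ) 𝓘(ℂ) ((chartAt ℂ q) ∘ (chartAt ℂ p).symm)
      ((chartAt ℂ p).target ∩ (chartAt ℂ p).symm ⁻¹' (chartAt ℂ q).source) :=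
    h3.comp (h1.mono inter_subset_left) (fun z hz => hz.2)
  exact mdifferentiableOn_iff_differentiableOn.1 h2

variable [CompleteSpace F]

theorem eventuallyConst_global [ConnectedSpace S] {f : S → F}
    (hf : MDifferentiable 𝓘(ℂ) 𝓘(ℂ, F) f) (c : F) (p : S) (h : ∀ᶠ q in 𝓝 p, f q = c) :
    ∀ q, f q = c := by
  set A : Set S := {q | ∀ᶠ r in 𝓝 q, f r = c} with hA
  have hAo : IsOpen A := isOpen_setOfPred_eventually_nhds
  have hAc : IsClosed A := by
    rw [← closure_subset_iff_isClosed]
    intro q hq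
    set e := chartAt ℂ q with he
    have hqs : q ∈ e.source := mem_chart_source ℂ q
    obtain ⟨r, hr, hball⟩ := Metric.isOpen_iff.1 e.open_target (e q) (e.map_source hqs)
    -- the neighbourhood V
    have hV : e.source ∩ e ⁻¹' (Metric.ball (e q) r) ∈ 𝓝 q := by
      exact Filter.inter_mem (e.open_source.mem_nhds hqs)
        ((e.continuousAt hqs).preimage_mem_nhds (Metric.ball_mem_nhds _ hr))
    obtain ⟨q', hq'V, hq'A⟩ := mem_closure_iff_nhds.1 hq _ hV
    have han : AnalyticOnNhd ℂ (fun z => f (e.symm z)) (Metric.ball (e q) r) := by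
      have := (hol_chart hf q).mono hball
      exact this.analyticOnNhd Metric.isOpen_ball
    have hconst : AnalyticOnNhd ℂ (fun _ : ℂ => c) (Metric.ball (e q) r) :=
      analyticOnNhd_const
    have hev : (fun z => f (e.symm z)) =ᶠ[𝓝 (e q')] fun _ => c := by
      have h1 : Tendsto e.symm (𝓝 (e q')) (𝓝 q') := by
        have := e.continuousAt_symm (e.map_source hq'V.1)
        rw [ContinuousAt, e.left_inv hq'V.1] at this
        exact this
      exact h1.eventually hq'A
    have heq := han.eqOn_of_preconnected_of_eventuallyEq hconst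
      (convex_ball _ _).isPreconnected hq'V.2 hev
    filter_upwards [hV] with x hx
    have := heq hx.2
    simpa [e.left_inv hx.1] using this
  have : A = univ := IsClopen.eq_univ ⟨hAc, hAo⟩ ⟨p, h⟩
  intro q
  have hq : q ∈ A := this ▸ mem_univ q
  exact hq.self_of_nhds

theorem open_map_or_const {f : S → ℂ} (hf : MDifferentiable 𝓘(ℂ) 𝓘(ℂ) f) (p : S) :
    (∀ᶠ q in 𝓝 p, f q = f p) ∨ 𝓝 (f p) ≤ Filter.map f (𝓝 p) := by
  set e := chartAt ℂ p with he
  have hps : p ∈ e.source := mem_chart_source ℂ p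
  have han : AnalyticAt ℂ (fun z => f (e.symm z)) (e p) :=
    (hol_chart hf p).analyticAt (e.open_target.mem_nhds (e.map_source hps))
  have h1 : Tendsto e.symm (𝓝 (e p)) (𝓝 p) := by
    have := e.continuousAt_symm (e.map_source hps)
    rwa [ContinuousAt, e.left_inv hps] at this
  rcases han.eventually_constant_or_nhds_le_map_nhds with h | h
  · left
    have h2 : Tendsto e (𝓝 p) (𝓝 (e p)) := e.continuousAt hps
    filter_upwards [h2.eventually h, e.open_source.mem_nhds hps] with q hq hqs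
    simpa [e.left_inv hqs, e.left_inv hps] using hq
  · right
    simp only [e.left_inv hps] at h
    refine h.trans ?_
    have : Filter.map (fun z => f (e.symm z)) (𝓝 (e p)) = Filter.map f (Filter.map e.symm (𝓝 (e p))) := by
      rw [Filter.map_map]; rfl
    rw [this]
    exact Filter.map_mono h1

end RS

end

section

variable {n k : ℕ}

theorem PHCurve.cont_u {U : Opens (Amb n k)} (C : PHCurve U) : Continuous C.u :=
  C.hol.continuous

theorem PHCurve.hol_comp {U : Opens (Amb n k)} (C : PHCurve U) (i : Fin n) :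
    MDifferentiable 𝓘(ℂ) 𝓘(ℂ) (fun p => C.u p i) := by
  have h : MDifferentiable 𝓘(ℂ, Fin n → ℂ) 𝓘(ℂ) (fun v : Fin n → ℂ => v i) := by
    rw [mdifferentiable_iff_differentiable]
    exact differentiable_apply i
  exact h.comp C.hol

/-- cover lemma -/
theorem PHCurve.cover {U : Opens (Amb n k)} (C : PHCurve U) {R : ℝ}
    (hball : Metric.ball (0 : Amb n k) R ⊆ U) (p0 : C.S) (hp0 : ‖((C.u p0, C.t) : Amb n k)‖ < R / 4)
    (a : Fin n → ℂ) (ha0 : a ≠ 0) (ha1 : ‖a‖ ≤ 1) (G : C.S → ℂ)
    (hG : MDifferentiable 𝓘(ℂ) 𝓘(ℂ) G) (hu : ∀ p, C.u p = C.u p0 + G p • a) :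
    ∀ ζ : ℂ, ‖ζ‖ < 3 * R / 4 → ∃ p, C.u p = C.u p0 + ζ • a := by
  have hmem : ∀ ζ : ℂ, ‖ζ‖ < 3 * R / 4 → ((C.u p0 + ζ • a, C.t) : Amb n k) ∈ U := by
    intro ζ hζ
    apply hball
    rw [mem_ball_zero_iff]
    have h1 : ((C.u p0 + ζ • a, C.t) : Amb n k) = (C.u p0, C.t) + (ζ • a, 0) := by simp
    rw [h1]
    refine (norm_add_le _ _).trans_lt ?_
    have h2 : ‖((ζ • a, 0) : Amb n k)‖ ≤ ‖ζ‖ := by
      rw [Prod.norm_def]
      simp only [norm_zero, norm_smul]
      apply max_le _ (norm_nonneg _)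
      nlinarith [norm_nonneg ζ, norm_nonneg a]
    linarith
  have hGp0 : G p0 = 0 := by
    have := hu p0
    have h2 : G p0 • a = 0 := by simpa using this.symm
    rcases smul_eq_zero.1 h2 with h | h
    · exact h
    · exact absurd h ha0
  have hnotconst : ∀ p, ¬ ∀ᶠ q in 𝓝 p, G q = G p := by
    intro p hp
    have hall := eventuallyConst_global hG (G p) p hp
    obtain ⟨q, -, hq⟩ := C.somewhereInj
    apply hq
    have : C.u = fun _ => C.u p0 + G p • a := by
      funext r; rw [hu r, hall r]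
    rw [this]
    exact mfderiv_const
  set D : Set ℂ := Metric.ball (0 : ℂ) (3 * R / 4) with hD
  have hR : 0 < R := by
    have := norm_nonneg ((C.u p0, C.t) : Amb n k)
    linarith
  have hDpre : PreconnectedSpace D :=
    isPreconnected_iff_preconnectedSpace.1 (convex_ball _ _).isPreconnected
  set A : Set D := {ζ : D | (ζ : ℂ) ∈ range G} with hA
  have hAo : IsOpen A := by
    have : IsOpen (range G) := by
      rw [isOpen_iff_mem_nhds]
      rintro _ ⟨p, rfl⟩
      rcases open_map_or_const hG p with h | h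
      · exact absurd h (hnotconst p)
      · apply h
        exact Filter.mem_map.2 (Filter.univ_mem' fun x => ⟨x, rfl⟩)
    exact this.preimage continuous_subtype_val
  have hAc : IsClosed A := by
    let ι : D → U := fun ζ => ⟨(C.u p0 + (ζ : ℂ) • a, C.t), hmem ζ (mem_ball_zero_iff.1 ζ.2)⟩
    have hι : Continuous ι := by
      apply Continuous.subtype_mk
      fun_prop
    have hcl : IsClosed (range (fun p => (⟨(C.u p, C.t), C.mem p⟩ : U))) :=
      C.proper.isClosedMap.isClosed_range
    have : A = ι ⁻¹' (range (fun p => (⟨(C.u p, C.t), C.mem p⟩ : U))) := by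
      ext ζ
      simp only [hA, mem_ofPred_eq, mem_range, mem_preimage, ι, Subtype.mk.injEq, Prod.mk.injEq,
        and_true]
      constructor
      · rintro ⟨p, hp⟩
        exact ⟨p, by rw [hu p, hp]⟩
      · rintro ⟨p, hp⟩
        refine ⟨p, ?_⟩
        rw [hu p] at hp
        have h2 : (G p - (ζ : ℂ)) • a = 0 := by
          rw [sub_smul, sub_eq_zero]; exact add_left_cancel hp
        rcases smul_eq_zero.1 h2 with h | h
        · exact sub_eq_zero.1 h
        · exact absurd h ha0
    rw [this]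
    exact hcl.preimage hι
  have hne : A.Nonempty := ⟨⟨0, by simp [D]; linarith⟩, p0, hGp0⟩
  have huniv : A = univ := IsClopen.eq_univ ⟨hAc, hAo⟩ hne
  intro ζ hζ
  have hζ' : (⟨ζ, by simpa [D] using hζ⟩ : D) ∈ A := huniv ▸ mem_univ _
  obtain ⟨p, hp⟩ := hζ'
  exact ⟨p, by rw [hu p, hp]⟩

/-- the support set -/
def suppSet (n k : ℕ) (i0 i1 : Fin n) : Set (Amb n k) :=
  {y | y.2 = 0 ∧ (∀ i, i ≠ i0 → i ≠ i1 → y.1 i = 0) ∧
    (((y.1 i0).re = 0 ∧ (y.1 i1).re ≤ 0) ∨ ((y.1 i1).re = 0 ∧ (y.1 i0).re ≤ 0) ∨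
      ((y.1 i0).re = (y.1 i1).re ∧ 0 ≤ (y.1 i0).re))}

theorem const_of_re_zero {S : Type} [TopologicalSpace S] [ChartedSpace ℂ S]
    [IsManifold 𝓘(ℂ) ω S] {h : S → ℂ} (hh : MDifferentiable 𝓘(ℂ) 𝓘(ℂ) h) (p : S)
    (hre : ∀ᶠ q in 𝓝 p, (h q).re = 0) : ∀ᶠ q in 𝓝 p, h q = h p := by
  rcases open_map_or_const hh p with h1 | h1
  · exact h1
  · exfalso
    have h2 : {w : ℂ | w.re = 0} ∈ 𝓝 (h p) := h1 hre
    obtain ⟨ε, hε, hb⟩ := Metric.mem_nhds_iff.1 h2
    have h3 : h p + ((ε / 2 : ℝ) : ℂ) ∈ Metric.ball (h p) ε := by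
      rw [Metric.mem_ball, dist_eq_norm]
      simp only [add_sub_cancel_left, Complex.norm_real, Real.norm_eq_abs]
      rw [abs_of_pos (by positivity)]; linarith
    have h4 := hb h3
    have h5 := hre.self_of_nhds
    simp only [mem_ofPred_eq, Complex.add_re, Complex.ofReal_re] at h4
    linarith

theorem PHCurve.far {U : Opens (Amb n k)} (C : PHCurve U) {i0 i1 : Fin n} (h01 : i0 ≠ i1) {R : ℝ}
    (hball : Metric.ball (0 : Amb n k) R ⊆ U)
    (hsupp : ∀ p, ‖((C.u p, C.t) : Amb n k)‖ < R → ((C.u p, C.t) : Amb n k) ∈ suppSet n k i0 i1)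
    (p0 : C.S) : R / 4 ≤ ‖((C.u p0, C.t) : Amb n k)‖ := by
  by_contra hcon
  push Not at hcon
  have hR : 0 < R := by
    have := norm_nonneg ((C.u p0, C.t) : Amb n k)
    linarith
  have hcu := C.cont_u
  have hS0 : IsOpen {p | ‖((C.u p, C.t) : Amb n k)‖ < R} := by
    apply isOpen_lt _ continuous_const
    fun_prop
  have hp0S : p0 ∈ {p | ‖((C.u p, C.t) : Amb n k)‖ < R} := by
    simp only [mem_ofPred_eq]; linarith
  have hc0 : Continuous fun p => (C.u p i0).re :=
    Complex.continuous_re.comp ((continuous_apply i0).comp hcu)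
  have hc1 : Continuous fun p => (C.u p i1).re :=
    Complex.continuous_re.comp ((continuous_apply i1).comp hcu)
  -- other coordinates vanish
  have hoth : ∀ i, i ≠ i0 → i ≠ i1 → ∀ p, C.u p i = 0 := by
    intro i hi0 hi1
    apply eventuallyConst_global (C.hol_comp i) 0 p0
    filter_upwards [hS0.mem_nhds hp0S] with p hp
    exact (hsupp p hp).2.1 i hi0 hi1
  -- one of the three functions is locally constant somewhere
  have key : ∃ p1, (∀ᶠ q in 𝓝 p1, (C.u q i0).re = 0) ∨ (∀ᶠ q in 𝓝 p1, (C.u q i1).re = 0) ∨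
      (∀ᶠ q in 𝓝 p1, (C.u q i0).re = (C.u q i1).re) := by
    by_cases h1 : ∀ᶠ q in 𝓝 p0, (C.u q i0).re = 0
    · exact ⟨p0, Or.inl h1⟩
    rw [Filter.not_eventually] at h1
    obtain ⟨q1, hq1, hq1S⟩ := (h1.and_eventually (hS0.mem_nhds hp0S)).exists
    have hev1 : ∀ᶠ q in 𝓝 q1, (C.u q i0).re ≠ 0 :=
      (isOpen_ne_fun hc0 continuous_const).mem_nhds hq1
    by_cases h2 : ∀ᶠ q in 𝓝 q1, (C.u q i1).re = 0
    · exact ⟨q1, Or.inr (Or.inl h2)⟩
    rw [Filter.not_eventually] at h2
    obtain ⟨q2, ⟨hq2, hq2S⟩, hq2'⟩ :=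
      ((h2.and_eventually (hS0.mem_nhds hq1S)).and_eventually hev1).exists
    have hev2 : ∀ᶠ q in 𝓝 q2, (C.u q i1).re ≠ 0 :=
      (isOpen_ne_fun hc1 continuous_const).mem_nhds hq2
    have hev1' : ∀ᶠ q in 𝓝 q2, (C.u q i0).re ≠ 0 :=
      (isOpen_ne_fun hc0 continuous_const).mem_nhds hq2'
    refine ⟨q2, Or.inr (Or.inr ?_)⟩
    filter_upwards [hev2, hev1', hS0.mem_nhds hq2S] with q ha hb hc
    rcases (hsupp q hc).2.2 with h | h | h
    · exact absurd h.1 hb
    · exact absurd h.1 ha
    · exact h.1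
  have hn1 : ∀ i, |(C.u p0 i).re| < R / 4 := by
    intro i
    refine (Complex.abs_re_le_norm _).trans_lt ?_
    refine (norm_le_pi_norm (C.u p0) i).trans_lt ?_
    exact (norm_fst_le ((C.u p0, C.t) : Amb n k)).trans_lt hcon
  have hfin : ∀ (a : Fin n → ℂ) (ζ : ℂ) (p : C.S), ‖a‖ ≤ 1 → ‖ζ‖ < 3 * R / 4 →
      C.u p = C.u p0 + ζ • a → ((C.u p, C.t) : Amb n k) ∈ suppSet n k i0 i1 := by
    intro a ζ p ha hζ hp
    apply hsupp
    have h1 : ((C.u p, C.t) : Amb n k) = (C.u p0, C.t) + (ζ • a, 0) := by simp [hp]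
    rw [h1]
    refine (norm_add_le _ _).trans_lt ?_
    have h2 : ‖((ζ • a, 0) : Amb n k)‖ ≤ ‖ζ‖ := by
      rw [Prod.norm_def]
      simp only [norm_zero, norm_smul]
      apply max_le _ (norm_nonneg _)
      nlinarith [norm_nonneg ζ, norm_nonneg a]
    linarith
  obtain ⟨p1, hp1⟩ := key
  rcases hp1 with h | h | h
  · -- Re u_{i0} = 0 near p1
    have hconst := eventuallyConst_global (C.hol_comp i0) _ p1 (const_of_re_zero (C.hol_comp i0) p1 h)
    have hre : (C.u p1 i0).re = 0 := h.self_of_nhds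
    set a : Fin n → ℂ := Pi.single i1 1 with ha
    have ha0 : a ≠ 0 := by simp [ha]
    have ha1 : ‖a‖ ≤ 1 := by
      rw [pi_norm_le_iff_of_nonneg zero_le_one]
      intro i
      by_cases hi : i = i1 <;> simp [ha, hi]
    have hGd : MDifferentiable 𝓘(ℂ) 𝓘(ℂ) (fun p => C.u p i1 - C.u p0 i1) := by
      have h : MDifferentiable 𝓘(ℂ, ℂ) 𝓘(ℂ) (fun w : ℂ => w - C.u p0 i1) := by
        rw [mdifferentiable_iff_differentiable]; fun_prop
      exact h.comp (C.hol_comp i1)
    have hu : ∀ p, C.u p = C.u p0 + (C.u p i1 - C.u p0 i1) • a := by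
      intro p
      funext i
      by_cases hi1 : i = i1
      · subst hi1; simp [ha]
      by_cases hi0 : i = i0
      · subst hi0; simp [ha, hi1, hconst p, hconst p0]
      · simp [ha, hi1, hoth i hi0 hi1]
    obtain ⟨p, hp⟩ := C.cover hball p0 hcon a ha0 ha1 _ hGd hu ((R / 2 : ℝ) : ℂ) (by
      rw [Complex.norm_real, Real.norm_eq_abs, abs_of_pos (by positivity)]; linarith)
    have hs := hfin a _ p ha1 (by
      rw [Complex.norm_real, Real.norm_eq_abs, abs_of_pos (by positivity)]; linarith) hp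
    have e0 : (C.u p i0).re = 0 := by rw [hconst p]; exact hre
    have e1 : (C.u p i1).re = (C.u p0 i1).re + R / 2 := by
      rw [hp]; simp [ha]
    have := abs_lt.1 (hn1 i1)
    rcases hs.2.2 with h | h | h
    · have := h.2; linarith
    · have := h.1; linarith
    · have := h.1; linarith
  · have hconst := eventuallyConst_global (C.hol_comp i1) _ p1 (const_of_re_zero (C.hol_comp i1) p1 h)
    have hre : (C.u p1 i1).re = 0 := h.self_of_nhds
    set a : Fin n → ℂ := Pi.single i0 1 with ha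
    have ha0 : a ≠ 0 := by simp [ha]
    have ha1 : ‖a‖ ≤ 1 := by
      rw [pi_norm_le_iff_of_nonneg zero_le_one]
      intro i
      by_cases hi : i = i0 <;> simp [ha, hi]
    have hGd : MDifferentiable 𝓘(ℂ) 𝓘(ℂ) (fun p => C.u p i0 - C.u p0 i0) := by
      have h : MDifferentiable 𝓘(ℂ, ℂ) 𝓘(ℂ) (fun w : ℂ => w - C.u p0 i0) := by
        rw [mdifferentiable_iff_differentiable]; fun_prop
      exact h.comp (C.hol_comp i0)
    have hu : ∀ p, C.u p = C.u p0 + (C.u p i0 - C.u p0 i0) • a := by
      intro p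
      funext i
      by_cases hi0 : i = i0
      · subst hi0; simp [ha]
      by_cases hi1 : i = i1
      · subst hi1; simp [ha, hi0, hconst p, hconst p0]
      · simp [ha, hi0, hoth i hi0 hi1]
    obtain ⟨p, hp⟩ := C.cover hball p0 hcon a ha0 ha1 _ hGd hu ((R / 2 : ℝ) : ℂ) (by
      rw [Complex.norm_real, Real.norm_eq_abs, abs_of_pos (by positivity)]; linarith)
    have hs := hfin a _ p ha1 (by
      rw [Complex.norm_real, Real.norm_eq_abs, abs_of_pos (by positivity)]; linarith) hp
    have e0 : (C.u p i1).re = 0 := by rw [hconst p]; exact hre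
    have e1 : (C.u p i0).re = (C.u p0 i0).re + R / 2 := by
      rw [hp]; simp [ha]
    have := abs_lt.1 (hn1 i0)
    rcases hs.2.2 with h | h | h
    · have := h.1; linarith
    · have := h.2; linarith
    · have := h.1; linarith
  · have hhd : MDifferentiable 𝓘(ℂ) 𝓘(ℂ) (fun p => C.u p i0 - C.u p i1) := by
      have h : MDifferentiable 𝓘(ℂ, Fin n → ℂ) 𝓘(ℂ) (fun v : Fin n → ℂ => v i0 - v i1) := by
        rw [mdifferentiable_iff_differentiable]; fun_prop
      exact h.comp C.hol
    have hre0 : ∀ᶠ q in 𝓝 p1, (C.u q i0 - C.u q i1).re = 0 := by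
      filter_upwards [h] with q hq
      simp [hq]
    have hconst := eventuallyConst_global hhd _ p1 (const_of_re_zero hhd p1 hre0)
    have hre : (C.u p1 i0 - C.u p1 i1).re = 0 := hre0.self_of_nhds
    set a : Fin n → ℂ := Pi.single i0 1 + Pi.single i1 1 with ha
    have ai0 : a i0 = 1 := by simp [ha, h01]
    have ai1 : a i1 = 1 := by simp [ha, h01.symm]
    have ha0 : a ≠ 0 := by
      intro h; rw [h] at ai0; simp at ai0
    have ha1 : ‖a‖ ≤ 1 := by
      rw [pi_norm_le_iff_of_nonneg zero_le_one]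
      intro i
      by_cases hi : i = i0
      · subst hi; rw [ai0]; simp
      by_cases hi' : i = i1
      · subst hi'; rw [ai1]; simp
      · simp [ha, hi, hi']
    have hGd : MDifferentiable 𝓘(ℂ) 𝓘(ℂ) (fun p => C.u p i0 - C.u p0 i0) := by
      have h : MDifferentiable 𝓘(ℂ, ℂ) 𝓘(ℂ) (fun w : ℂ => w - C.u p0 i0) := by
        rw [mdifferentiable_iff_differentiable]; fun_prop
      exact h.comp (C.hol_comp i0)
    have hu : ∀ p, C.u p = C.u p0 + (C.u p i0 - C.u p0 i0) • a := by
      intro p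
      funext i
      by_cases hi0 : i = i0
      · subst hi0; simp [ai0]
      by_cases hi1 : i = i1
      · subst hi1
        have e1 := hconst p
        have e2 := hconst p0
        simp only [Pi.add_apply, Pi.smul_apply, ai1, smul_eq_mul, mul_one]
        linear_combination e2 - e1
      · simp [ha, hi0, hi1, hoth i hi0 hi1]
    obtain ⟨p, hp⟩ := C.cover hball p0 hcon a ha0 ha1 _ hGd hu ((-(R / 2) : ℝ) : ℂ) (by
      rw [Complex.norm_real, Real.norm_eq_abs, abs_neg, abs_of_pos (by positivity)]; linarith)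
    have hs := hfin a _ p ha1 (by
      rw [Complex.norm_real, Real.norm_eq_abs, abs_neg, abs_of_pos (by positivity)]; linarith) hp
    have e0 : (C.u p i0).re = (C.u p i1).re := by
      have := hconst p
      have h2 := congrArg Complex.re this
      rw [hre] at h2
      simp only [Complex.sub_re] at h2
      linarith
    have e1 : (C.u p i0).re = (C.u p0 i0).re - R / 2 := by
      rw [hp]; simp [ai0, sub_eq_add_neg]
    have := abs_lt.1 (hn1 i0)
    rcases hs.2.2 with h | h | h
    · have := h.1; linarith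
    · have := h.1; linarith
    · have := h.2; linarith

end

section

variable {n k : ℕ}

/-- The standard Kaehler form in the leaf directions. -/
noncomputable def kahler (n k : ℕ) : Form n k 2 :=
  { toFun := fun v => ∑ j, (((v 0).1 j).re * ((v 1).1 j).im - ((v 0).1 j).im * ((v 1).1 j).re)
    map_update_add' := by
      intro _ v i x y
      rw [← Finset.sum_add_distrib]
      apply Finset.sum_congr rfl
      intro j _
      fin_cases i <;> simp [Function.update] <;> ring
    map_update_smul' := by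
      intro _ v i c x
      rw [smul_eq_mul, Finset.mul_sum]
      apply Finset.sum_congr rfl
      intro j _
      fin_cases i <;> simp [Function.update] <;> ring
    map_eq_zero_of_eq' := by
      intro v i j h hij
      apply Finset.sum_eq_zero
      intro l _
      have h01 : v 0 = v 1 := by
        fin_cases i <;> fin_cases j <;> simp_all
      rw [h01]; ring
    cont := by
      apply continuous_finsetSum
      intro j _
      have h0 : Continuous fun v : Fin 2 → Amb n k => (v 0).1 j := by fun_prop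
      have h1 : Continuous fun v : Fin 2 → Amb n k => (v 1).1 j := by fun_prop
      exact ((Complex.continuous_re.comp h0).mul (Complex.continuous_im.comp h1)).sub
        ((Complex.continuous_im.comp h0).mul (Complex.continuous_re.comp h1)) }

theorem kahler_apply (v w : Amb n k) : kahler n k ![v, w] =
    ∑ j, ((v.1 j).re * (w.1 j).im - (v.1 j).im * (w.1 j).re) := rfl

theorem kahler_J (v : Fin n → ℂ) (s t : Fin k → ℝ): kahler n k ![(v, s), (Complex.I • v, t)] =
    ∑ j, ‖v j‖ ^ 2 := by
  rw [kahler_apply]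
  apply Finset.sum_congr rfl
  intro j _
  rw [← Complex.normSq_eq_norm_sq, Complex.normSq_apply]
  simp

theorem kahler_J_nonneg (v : Fin n → ℂ) (s t : Fin k → ℝ) :
    0 ≤ kahler n k ![(v, s), (Complex.I • v, t)] := by
  rw [kahler_J]; positivity

theorem kahler_J_pos {v : Fin n → ℂ} (hv : v ≠ 0) (s t : Fin k → ℝ) :
    0 < kahler n k ![(v, s), (Complex.I • v, t)] := by
  rw [kahler_J]
  obtain ⟨j, hj⟩ := Function.ne_iff.1 hv
  apply Finset.sum_pos' (fun _ _ => by positivity)
  exact ⟨j, Finset.mem_univ _, by have : 0 < ‖v j‖ := norm_pos_iff.2 hj; positivity⟩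

end

section

variable {U : Opens (Amb n k)}

/-- The test form `χ Ω`. -/
noncomputable def kform (χ : 𝓓(U, ℝ)) : 𝓓(U, Form n k 2) :=
  TestFunction.postcompCLM (ContinuousLinearMap.toSpanSingleton ℝ (kahler n k)) χ

theorem kform_apply (χ : 𝓓(U, ℝ)) (y : Amb n k) : kform χ y = χ y • kahler n k := by
  simp [kform, ContinuousLinearMap.toSpanSingleton_apply]

theorem PHCurve.fderiv_inChart (C : PHCurve U) (p : C.S) {z : ℂ}
    (hz : z ∈ (chartAt ℂ p).target) :
    HasFDerivAt (C.inChart p) ((((fderiv ℂ (fun w => C.u ((chartAt ℂ p).symm w)) z).restrictScalars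
      ℝ)).prod 0) z := by
  have h1 : DifferentiableAt ℂ (fun w => C.u ((chartAt ℂ p).symm w)) z :=
    (hol_chart C.hol p).differentiableAt ((chartAt ℂ p).open_target.mem_nhds hz)
  exact (h1.hasFDerivAt.restrictScalars ℝ).prodMk (hasFDerivAt_const C.t z)

theorem PHCurve.density_kform (C : PHCurve U) (p : C.S) (χ : 𝓓(U, ℝ)) {z : ℂ}
    (hz : z ∈ (chartAt ℂ p).target) :
    C.density p (kform χ) z = χ (C.inChart p z) *
      kahler n k ![(deriv (fun w => C.u ((chartAt ℂ p).symm w)) z, 0),
        (Complex.I • deriv (fun w => C.u ((chartAt ℂ p).symm w)) z, 0)] := by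
  rw [PHCurve.density, kform_apply, (C.fderiv_inChart p hz).fderiv]
  simp only [ContinuousAlternatingMap.smul_apply, smul_eq_mul]
  have e1 : ((fderiv ℂ (fun w => C.u ((chartAt ℂ p).symm w)) z).restrictScalars ℝ).prod
      (0 : ℂ →L[ℝ] (Fin k → ℝ)) 1 = (deriv (fun w => C.u ((chartAt ℂ p).symm w)) z, 0) := by
    simp
  have e2 : ((fderiv ℂ (fun w => C.u ((chartAt ℂ p).symm w)) z).restrictScalars ℝ).prod
      (0 : ℂ →L[ℝ] (Fin k → ℝ)) Complex.I =
        (Complex.I • deriv (fun w => C.u ((chartAt ℂ p).symm w)) z, 0) := by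
    simp [fderiv_eq_smul_deriv]
  rw [e1, e2]

theorem PHCurve.piece_subset (C : PHCurve U) (s : ℕ → C.S) (j : ℕ) :
    C.piece s j ⊆ (chartAt ℂ (s j)).target := by
  rintro _ ⟨p, hp, rfl⟩
  exact (chartAt ℂ (s j)).map_source hp.1

theorem PHCurve.piece_eq (C : PHCurve U) (s : ℕ → C.S) (j : ℕ) :
    C.piece s j = (chartAt ℂ (s j)).target ∩ (chartAt ℂ (s j)).symm ⁻¹'
      ((chartAt ℂ (s j)).source \ ⋃ i < j, (chartAt ℂ (s i)).source) := by
  ext z
  constructor
  · rintro ⟨p, hp, rfl⟩
    refine ⟨(chartAt ℂ (s j)).map_source hp.1, ?_⟩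
    simpa [(chartAt ℂ (s j)).left_inv hp.1] using hp
  · rintro ⟨hz1, hz2⟩
    exact ⟨_, hz2, (chartAt ℂ (s j)).right_inv hz1⟩

theorem PHCurve.piece_measurable (C : PHCurve U) (s : ℕ → C.S) (j : ℕ) :
    MeasurableSet (C.piece s j) := by
  have hopen : IsOpen (⋃ i < j, (chartAt ℂ (s i)).source) :=
    isOpen_biUnion fun i _ => (chartAt ℂ (s i)).open_source
  have : C.piece s j = (chartAt ℂ (s j)).target \ ((chartAt ℂ (s j)).target ∩
      (chartAt ℂ (s j)).symm ⁻¹' (⋃ i < j, (chartAt ℂ (s i)).source)) := by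
    rw [C.piece_eq]
    ext z
    constructor
    · rintro ⟨h1, h2, h3⟩
      exact ⟨h1, fun h => h3 h.2⟩
    · rintro ⟨h1, h2⟩
      exact ⟨h1, (chartAt ℂ (s j)).map_target h1, fun h => h2 ⟨h1, h⟩⟩
  rw [this]
  exact (chartAt ℂ (s j)).open_target.measurableSet.diff
    ((chartAt ℂ (s j)).isOpen_inter_preimage_symm hopen).measurableSet

theorem PHCurve.density_nonneg (C : PHCurve U) (p : C.S) {χ : 𝓓(U, ℝ)} (hχ : ∀ y, 0 ≤ χ y) {z : ℂ}
    (hz : z ∈ (chartAt ℂ p).target) : 0 ≤ C.density p (kform χ) z := by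
  rw [C.density_kform p χ hz]
  exact mul_nonneg (hχ _) (kahler_J_nonneg _ _ _)

theorem PHCurve.integral_nonneg {C : PHCurve U} {T : Current U 2} (hT : C.IsIntegrationCurrent T)
    {χ : 𝓓(U, ℝ)} (hχ : ∀ y, 0 ≤ χ y) : 0 ≤ T (kform χ) := by
  obtain ⟨s, hs, hα⟩ := hT
  obtain ⟨-, h2⟩ := hα (kform χ)
  apply h2.nonneg
  intro j
  apply setIntegral_nonneg (C.piece_measurable s j)
  intro z hz
  exact C.density_nonneg _ hχ (C.piece_subset s j hz)

theorem PHCurve.eq_zero_of_avoid {C : PHCurve U} {T : Current U 2} (hT : C.IsIntegrationCurrent T)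
    {χ : 𝓓(U, ℝ)} (hχ : ∀ p, χ (C.u p, C.t) = 0) : T (kform χ) = 0 := by
  obtain ⟨s, hs, hα⟩ := hT
  obtain ⟨-, h2⟩ := hα (kform χ)
  have : ∀ j, ∫ z in C.piece s j, C.density (s j) (kform χ) z = 0 := by
    intro j
    apply setIntegral_eq_zero_of_forall_eq_zero
    intro z hz
    rw [C.density_kform _ χ (C.piece_subset s j hz)]
    have : χ (C.inChart (s j) z) = 0 := hχ _
    rw [this, zero_mul]
  simp only [this] at h2
  exact h2.unique hasSum_zero

theorem PHCurve.avoid_of_eq_zero {C : PHCurve U} {T : Current U 2} (hT : C.IsIntegrationCurrent T)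
    {χ : 𝓓(U, ℝ)} (hχ : ∀ y, 0 ≤ χ y) (h0 : T (kform χ) = 0) :
    ∀ p, χ (C.u p, C.t) = 0 := by
  intro p0
  by_contra hp0
  obtain ⟨s, hs, hα⟩ := hT
  obtain ⟨h1, h2⟩ := hα (kform χ)
  rw [h0] at h2
  have hnn : ∀ j, 0 ≤ ∫ z in C.piece s j, C.density (s j) (kform χ) z := by
    intro j
    apply setIntegral_nonneg (C.piece_measurable s j)
    intro z hz
    exact C.density_nonneg _ hχ (C.piece_subset s j hz)
  have h3 : ∀ j, ∫ z in C.piece s j, C.density (s j) (kform χ) z = 0 := by
    have := (hasSum_zero_iff_of_nonneg hnn).1 h2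
    intro j; exact congrFun this j
  have hnull : ∀ j, volume {z ∈ C.piece s j | C.density (s j) (kform χ) z ≠ 0} = 0 := by
    intro j
    have h4 := (setIntegral_eq_zero_iff_of_nonneg_ae (by
      rw [Filter.EventuallyLE, ae_restrict_iff' (C.piece_measurable s j)]
      exact Filter.Eventually.of_forall fun z hz =>
        C.density_nonneg _ hχ (C.piece_subset s j hz)) (h1 j)).1 (h3 j)
    rw [Filter.EventuallyEq, ae_restrict_iff' (C.piece_measurable s j)] at h4
    have h5 := ae_iff.1 h4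
    refine measure_mono_null ?_ h5
    intro z hz
    simp only [mem_ofPred_eq, Classical.not_imp]
    exact ⟨hz.1, hz.2⟩
  set e := chartAt ℂ p0 with he
  have hps : p0 ∈ e.source := mem_chart_source ℂ p0
  set f : ℂ → Fin n → ℂ := fun w => C.u (e.symm w) with hf
  have hfd : DifferentiableOn ℂ f e.target := hol_chart C.hol p0
  set P : Set C.S := {p | χ (C.u p, C.t) ≠ 0} with hP
  have hPo : IsOpen P := by
    apply isOpen_ne_fun _ continuous_const
    have := C.cont_u
    have h7 : Continuous fun p => ((C.u p, C.t) : Amb n k) := by fun_prop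
    exact χ.continuous.comp h7
  set O : Set ℂ := e.target ∩ e.symm ⁻¹' P with hO
  have hOo : IsOpen O := e.isOpen_inter_preimage_symm hPo
  have hOne : e p0 ∈ O := ⟨e.map_source hps, by
    change e.symm (e p0) ∈ P
    rw [e.left_inv hps]; exact hp0⟩
  have hderiv : ∀ z ∈ O, deriv f z = 0 := by
    by_contra hcon
    push Not at hcon
    obtain ⟨z0, hz0O, hz0⟩ := hcon
    have hfan : AnalyticOnNhd ℂ f e.target := hfd.analyticOnNhd e.open_target
    have hdc : ContinuousOn (deriv f) e.target := hfan.deriv.continuousOn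
    set O' : Set ℂ := O ∩ (deriv f) ⁻¹' {0}ᶜ with hO'
    have hO'o : IsOpen O' := by
      have : IsOpen (e.target ∩ (deriv f) ⁻¹' {0}ᶜ) :=
        hdc.isOpen_inter_preimage e.open_target isOpen_compl_singleton
      have h8 : O' = O ∩ (e.target ∩ (deriv f) ⁻¹' {0}ᶜ) := by
        ext z; constructor
        · rintro ⟨ha, hb⟩; exact ⟨ha, ha.1, hb⟩
        · rintro ⟨ha, -, hb⟩; exact ⟨ha, hb⟩
      rw [h8]; exact hOo.inter this
    have hpos : 0 < volume O' := hO'o.measure_pos volume ⟨z0, hz0O, hz0⟩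
    have hzero : volume O' = 0 := by
      set A : ℕ → Set C.S := fun j =>
        (chartAt ℂ (s j)).source \ ⋃ i < j, (chartAt ℂ (s i)).source with hA
      have hcov : O' ⊆ ⋃ j, (O' ∩ e.symm ⁻¹' (A j)) := by
        intro z hz
        have hex : ∃ j, e.symm z ∈ (chartAt ℂ (s j)).source := by
          have := (Set.ext_iff.1 hs (e.symm z)).2 (mem_univ _)
          exact mem_iUnion.1 this
        classical
        refine mem_iUnion.2 ⟨Nat.find hex, hz, Nat.find_spec hex, ?_⟩
        intro hmem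
        simp only [mem_iUnion, exists_prop] at hmem
        obtain ⟨i, hi, hmem⟩ := hmem
        exact Nat.find_min hex hi hmem
      refine measure_mono_null hcov ?_
      rw [measure_iUnion_null_iff]
      intro j
      set ej := chartAt ℂ (s j) with hej
      set N : Set ℂ := {z ∈ C.piece s j | C.density (s j) (kform χ) z ≠ 0} with hN
      set N' : Set ℂ := N ∩ (ej.target ∩ ej.symm ⁻¹' e.source) with hN'
      have hN'0 : volume N' = 0 := measure_mono_null inter_subset_left (hnull j)
      have hτ : DifferentiableOn ℝ (fun z => e (ej.symm z)) N' :=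
        ((trans_chart (s j) p0).restrictScalars ℝ).mono inter_subset_right
      have himg := addHaar_image_eq_zero_of_differentiableOn_of_addHaar_eq_zero volume hτ hN'0
      refine measure_mono_null ?_ himg
      rintro z ⟨⟨⟨hzt, hzP⟩, hzd⟩, hzA⟩
      have hzsrc : e.symm z ∈ ej.source := hzA.1
      refine ⟨ej (e.symm z), ⟨⟨⟨e.symm z, hzA, rfl⟩, ?_⟩, ej.map_source hzsrc, ?_⟩, ?_⟩
      · have hztj : ej (e.symm z) ∈ ej.target := ej.map_source hzsrc
        rw [C.density_kform (s j) χ hztj]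
        have h9 : C.inChart (s j) (ej (e.symm z)) = (C.u (e.symm z), C.t) := by
          simp only [PHCurve.inChart, ← hej, ej.left_inv hzsrc]
        apply mul_ne_zero
        · rw [h9]; exact hzP
        · apply ne_of_gt
          apply kahler_J_pos
          intro hd0
          apply hzd
          -- chain rule
          have hg : DifferentiableAt ℂ (fun w => C.u (ej.symm w)) (ej (e.symm z)) :=
            (hol_chart C.hol (s j)).differentiableAt (ej.open_target.mem_nhds hztj)
          have hzO : z ∈ e.target ∩ e.symm ⁻¹' ej.source := ⟨hzt, hzsrc⟩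
          have hopen : IsOpen (e.target ∩ e.symm ⁻¹' ej.source) :=
            e.isOpen_inter_preimage_symm ej.open_source
          have ht : DifferentiableAt ℂ (fun w => ej (e.symm w)) z :=
            (trans_chart p0 (s j)).differentiableAt (hopen.mem_nhds hzO)
          have hcomp : f =ᶠ[𝓝 z] fun w => (fun w' => C.u (ej.symm w')) (ej (e.symm w)) := by
            filter_upwards [hopen.mem_nhds hzO] with w hw
            simp only [hf]
            rw [ej.left_inv hw.2]
          rw [hcomp.deriv_eq]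
          have hd := (hg.hasDerivAt.scomp z ht.hasDerivAt).deriv
          change deriv ((fun w' => C.u (ej.symm w')) ∘ fun w => ej (e.symm w)) z = 0
          rw [hd, hd0, smul_zero]
      · change ej.symm (ej (e.symm z)) ∈ e.source
        rw [ej.left_inv hzsrc]
        exact e.map_target hzt
      · simp only [ej.left_inv hzsrc, e.right_inv hzt]
    exact hpos.ne' hzero
  -- hence f is locally constant near e p0
  obtain ⟨r, hr, hball⟩ := Metric.isOpen_iff.1 hOo (e p0) hOne
  have hconst : ∀ z ∈ Metric.ball (e p0) r, f z = f (e p0) := by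
    intro z hz
    apply (convex_ball (e p0) r).is_const_of_fderivWithin_eq_zero (𝕜 := ℂ) _ _ hz
      (Metric.mem_ball_self hr)
    · exact hfd.mono fun w hw => (hball hw).1
    · intro w hw
      rw [fderivWithin_of_isOpen Metric.isOpen_ball hw]
      ext1
      simp [hderiv w (hball hw)]
  have hev : ∀ᶠ p in 𝓝 p0, C.u p = C.u p0 := by
    have h10 : e ⁻¹' Metric.ball (e p0) r ∈ 𝓝 p0 :=
      (e.continuousAt hps).preimage_mem_nhds (Metric.ball_mem_nhds _ hr)
    filter_upwards [h10, e.open_source.mem_nhds hps] with p hp hps'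
    have := hconst _ hp
    simpa [hf, e.left_inv hps', e.left_inv hps] using this
  have hall := eventuallyConst_global C.hol _ p0 hev
  obtain ⟨q, -, hq⟩ := C.somewhereInj
  apply hq
  have : C.u = fun _ => C.u p0 := by
    funext r; exact hall r
  rw [this]
  exact mfderiv_const

end

section

/-- Lebesgue measure on the half space `{s > 0}` of `ℝ × ℝ²`. -/
noncomputable def halfMeasure : Measure (ℝ × (ℝ × ℝ)) :=
  ((volume : Measure ℝ).restrict (Ioi 0)).prod (volume : Measure (ℝ × ℝ))

theorem halfMeasure_eq : halfMeasure = (volume : Measure (ℝ × (ℝ × ℝ))).restrict (Ioi 0 ×ˢ univ) := by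
  rw [halfMeasure, Measure.volume_eq_prod ℝ (ℝ × ℝ), ← Measure.prod_restrict,
    Measure.restrict_univ]

theorem integral_fderiv_zero {G : ℝ × ℝ → ℝ} (hG : ContDiff ℝ 1 G) (hc : HasCompactSupport G)
    (w : ℝ × ℝ) : ∫ y, fderiv ℝ G y w = 0 := by
  have h := integral_mul_fderiv_eq_neg_fderiv_mul_of_integrable (μ := (volume : Measure (ℝ × ℝ)))
    (f := fun _ => (1 : ℝ)) (g := G) (v := w) (by simp) (by
      simp only [one_mul]
      have hcd : Continuous fun x => fderiv ℝ G x w := by
        have := hG.continuous_fderiv one_ne_zero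
        fun_prop
      apply hcd.integrable_of_hasCompactSupport
      exact (hc.fderiv ℝ).comp_left (g := fun L : (ℝ × ℝ) →L[ℝ] ℝ => L w) (by simp))
    (by
      simp only [one_mul]
      exact hG.continuous.integrable_of_hasCompactSupport hc)
    (fun x _ => by fun_prop) (fun x _ => hG.differentiable one_ne_zero x)
  simpa using h

theorem half_normal {G : ℝ × (ℝ × ℝ) → ℝ} (hG : ContDiff ℝ 1 G) (hc : HasCompactSupport G) :
    ∫ q, fderiv ℝ G q (1, 0) ∂halfMeasure = - ∫ p, G (0, p) := by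
  have hcd : Continuous fun x => fderiv ℝ G x (1, 0) := by
    have := hG.continuous_fderiv one_ne_zero
    fun_prop
  have hint : Integrable (fun q => fderiv ℝ G q (1, 0)) halfMeasure := by
    rw [halfMeasure_eq]
    apply Integrable.integrableOn
    apply hcd.integrable_of_hasCompactSupport
    exact (hc.fderiv ℝ).comp_left (g := fun L : (ℝ × (ℝ × ℝ)) →L[ℝ] ℝ => L (1, 0)) (by simp)
  rw [halfMeasure, integral_prod_symm _ hint, ← integral_neg]
  congr 1
  funext y
  have hg : ContDiff ℝ 1 (fun s : ℝ => G (s, y)) := by fun_prop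
  have hgc : HasCompactSupport (fun s : ℝ => G (s, y)) := by
    have hemb : Topology.IsClosedEmbedding (fun s : ℝ => ((s, y) : ℝ × (ℝ × ℝ))) := by
      refine Topology.IsClosedEmbedding.of_continuous_injective_isClosedMap (by fun_prop) ?_ ?_
      · intro a b h; exact congrArg Prod.fst h
      · exact isClosedMap_prodMk_right _
    exact hc.comp_isClosedEmbedding hemb
  have h1 := hgc.integral_Ioi_deriv_eq hg 0
  rw [← h1]
  congr 1
  funext s
  have h2 : HasDerivAt (fun s : ℝ => ((s, y) : ℝ × (ℝ × ℝ))) (1, 0) s :=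
    (hasDerivAt_id s).prodMk (hasDerivAt_const s y)
  have h3 := (hG.differentiable one_ne_zero (s, y)).hasFDerivAt.comp_hasDerivAt s h2
  exact h3.deriv.symm

theorem half_tangent {G : ℝ × (ℝ × ℝ) → ℝ} (hG : ContDiff ℝ 1 G) (hc : HasCompactSupport G)
    (w : ℝ × ℝ) : ∫ q, fderiv ℝ G q (0, w) ∂halfMeasure = 0 := by
  have hcd : Continuous fun x => fderiv ℝ G x (0, w) := by
    have := hG.continuous_fderiv one_ne_zero
    fun_prop
  have hint : Integrable (fun q => fderiv ℝ G q (0, w)) halfMeasure := by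
    rw [halfMeasure_eq]
    apply Integrable.integrableOn
    apply hcd.integrable_of_hasCompactSupport
    exact (hc.fderiv ℝ).comp_left (g := fun L : (ℝ × (ℝ × ℝ)) →L[ℝ] ℝ => L (0, w)) (by simp)
  rw [halfMeasure, integral_prod _ hint]
  have : ∀ s : ℝ, ∫ y, fderiv ℝ G (s, y) (0, w) = 0 := by
    intro s
    have hg : ContDiff ℝ 1 (fun y : ℝ × ℝ => G (s, y)) := by fun_prop
    have hgc : HasCompactSupport (fun y : ℝ × ℝ => G (s, y)) := by
      have hemb : Topology.IsClosedEmbedding (fun y : ℝ × ℝ => ((s, y) : ℝ × (ℝ × ℝ))) := by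
        refine Topology.IsClosedEmbedding.of_continuous_injective_isClosedMap (by fun_prop) ?_ ?_
        · intro a b h; exact congrArg Prod.snd h
        · exact isClosedMap_prodMk_left _
      exact hc.comp_isClosedEmbedding hemb
    refine Eq.trans ?_ (integral_fderiv_zero hg hgc w)
    congr 1
    funext y
    have h2 : HasFDerivAt (fun y : ℝ × ℝ => ((s, y) : ℝ × (ℝ × ℝ)))
        ((0 : (ℝ × ℝ) →L[ℝ] ℝ).prod (ContinuousLinearMap.id ℝ (ℝ × ℝ))) y :=
      (hasFDerivAt_const s y).prodMk (hasFDerivAt_id y)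
    have h3 := (hG.differentiable one_ne_zero (s, y)).hasFDerivAt.comp y h2
    have h4 := h3.fderiv
    change _ = fderiv ℝ (G ∘ fun y : ℝ × ℝ => (s, y)) y w
    rw [h4]
    simp
  simp [this]

end

section

variable {n k : ℕ} (i0 i1 : Fin n)

/-- The vector with coordinates `z` at `i0` and `w` at `i1`. -/
noncomputable def two (z w : ℂ) : Fin n → ℂ := Pi.single i0 z + Pi.single i1 w

/-- Parametrisation of a half hyperplane. -/
noncomputable def param (k : ℕ) (c : ℝ × ℝ) : (ℝ × (ℝ × ℝ)) →L[ℝ] Amb n k :=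
  LinearMap.toContinuousLinearMap
    { toFun := fun q => (two i0 i1 (q.1 * c.1 + q.2.1 * Complex.I) (q.1 * c.2 + q.2.2 * Complex.I), 0)
      map_add' := by
        intro x y
        ext j
        · simp [two, Pi.single_apply]
          split_ifs <;> ring
        · simp
      map_smul' := by
        intro r x
        ext j
        · simp [two, Pi.single_apply]
          split_ifs <;> ring
        · simp }

theorem param_apply (c : ℝ × ℝ) (q : ℝ × (ℝ × ℝ)) : param i0 i1 k c q =
    (two i0 i1 (q.1 * c.1 + q.2.1 * Complex.I) (q.1 * c.2 + q.2.2 * Complex.I), 0) := rfl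

variable {i0 i1}

theorem param_injective (h01 : i0 ≠ i1) {c : ℝ × ℝ} (hc : c ≠ 0) :
    Function.Injective (param i0 i1 k c) := by
  rw [injective_iff_map_eq_zero]
  intro q hq
  rw [param_apply] at hq
  have h1 : two i0 i1 (q.1 * c.1 + q.2.1 * Complex.I) (q.1 * c.2 + q.2.2 * Complex.I) = 0 :=
    congrArg Prod.fst hq
  have h2 := congrFun h1 i0
  have h3 := congrFun h1 i1
  simp only [two, Pi.add_apply, Pi.single_eq_same, Pi.single_eq_of_ne h01, add_zero,
    Pi.zero_apply, Pi.single_eq_of_ne h01.symm, zero_add] at h2 h3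
  have a1 := congrArg Complex.re h2
  have a2 := congrArg Complex.im h2
  have a3 := congrArg Complex.re h3
  have a4 := congrArg Complex.im h3
  simp at a1 a2 a3 a4
  have : q.1 = 0 := by
    rcases a1 with h | h
    · exact h
    rcases a3 with h' | h'
    · exact h'
    exact absurd (Prod.ext h h') hc
  exact Prod.ext this (Prod.ext a2 a4)

variable (i0 i1)

/-- The 2-vector `a ∧ J a` with `a` the direction given by `c`. -/
noncomputable def vec (k : ℕ) (c : ℝ × ℝ) : Form n k 2 →L[ℝ] ℝ :=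
  wedge (two i0 i1 c.1 c.2, 0) (Complex.I • two i0 i1 c.1 c.2, 0)

/-- The measure carried by a half hyperplane. -/
noncomputable def pieceMeasure (k : ℕ) (c : ℝ × ℝ) : Measure (Amb n k) :=
  halfMeasure.map (param i0 i1 k c)

variable {i0 i1}

theorem pieceMeasure_locFinite (h01 : i0 ≠ i1) {c : ℝ × ℝ} (hc : c ≠ 0) :
    IsLocallyFiniteMeasure (pieceMeasure i0 i1 k c) := by
  have hemb : Topology.IsClosedEmbedding (param i0 i1 k c) :=
    LinearMap.isClosedEmbedding_of_injective (f := (param i0 i1 k c).toLinearMap)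
      (LinearMap.ker_eq_bot.2 (param_injective h01 hc))
  have hfc : IsFiniteMeasureOnCompacts (pieceMeasure i0 i1 k c) := by
    constructor
    intro K hK
    rw [pieceMeasure, Measure.map_apply (param i0 i1 k c).continuous.measurable hK.measurableSet,
      halfMeasure_eq]
    refine (Measure.restrict_apply_le _ _).trans_lt ?_
    exact (hemb.isProperMap.isCompact_preimage hK).measure_lt_top
  infer_instance

variable (i0 i1)

/-- One piece of the tropical line current. -/
noncomputable def pieceCurrent (k : ℕ) (c : ℝ × ℝ) : Current (⊤ : Opens (Amb n k)) 2 :=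
  TestFunction.integralAgainstBilinCLM
    ((vec i0 i1 k c).smulRight (ContinuousLinearMap.id ℝ ℝ)) (pieceMeasure i0 i1 k c)
    (fun _ => (1 : ℝ))

variable {i0 i1}

theorem pieceCurrent_apply (h01 : i0 ≠ i1) {c : ℝ × ℝ} (hc : c ≠ 0)
    (α : 𝓓((⊤ : Opens (Amb n k)), Form n k 2)) :
    pieceCurrent i0 i1 k c α = ∫ q, vec i0 i1 k c (α (param i0 i1 k c q)) ∂halfMeasure := by
  have := pieceMeasure_locFinite (k := k) h01 hc
  rw [pieceCurrent, TestFunction.integralAgainstBilinCLM_eq_integral]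
  · rw [pieceMeasure, integral_map]
    · simp
    · exact (param i0 i1 k c).continuous.measurable.aemeasurable
    · have : Continuous fun x => (((vec i0 i1 k c).smulRight (ContinuousLinearMap.id ℝ ℝ)) (α x)) 1 := by
        fun_prop
      exact this.aestronglyMeasurable
  · exact (locallyIntegrable_const 1).locallyIntegrableOn _

theorem dTest_apply {U : Opens (Amb n k)} (β : 𝓓(U, Form n k 1)) (x v w : Amb n k) :
    dTest β x ![v, w] = fderiv ℝ (fun y => β y ![w]) x v - fderiv ℝ (fun y => β y ![v]) x w := by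
  have hd : DifferentiableAt ℝ β x :=
    β.contDiff.differentiable (by simp) x
  change extDeriv β x ![v, w] = _
  rw [extDeriv_apply hd, Fin.sum_univ_two]
  have e0 : (0 : Fin 2).removeNth ![v, w] = ![w] := by
    funext i; fin_cases i; rfl
  have e1 : (1 : Fin 2).removeNth ![v, w] = ![v] := by
    funext i; fin_cases i; rfl
  rw [e0, e1]
  simp [sub_eq_add_neg]

theorem pieceCurrent_cycle (h01 : i0 ≠ i1) {c : ℝ × ℝ} (hc : c ≠ 0)
    (β : 𝓓((⊤ : Opens (Amb n k)), Form n k 1)) :
    pieceCurrent i0 i1 k c (dTest β) =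
      - ∫ p : ℝ × ℝ, β (two i0 i1 (p.1 * Complex.I) (p.2 * Complex.I), 0)
        ![(Complex.I • two i0 i1 c.1 c.2, 0)] := by
  rw [pieceCurrent_apply h01 hc]
  set a : Amb n k := (two i0 i1 c.1 c.2, 0) with ha
  set b : Amb n k := (Complex.I • two i0 i1 c.1 c.2, 0) with hb
  have hemb : Topology.IsClosedEmbedding (param i0 i1 k c) :=
    LinearMap.isClosedEmbedding_of_injective (f := (param i0 i1 k c).toLinearMap)
      (LinearMap.ker_eq_bot.2 (param_injective h01 hc))
  have hsm : ∀ v : Amb n k, ContDiff ℝ 1 (fun q => β (param i0 i1 k c q) ![v]) := by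
    intro v
    have h1 : ContDiff ℝ 1 β := β.contDiff.of_le (by simp)
    have h2 : ContDiff ℝ 1 (fun q => β (param i0 i1 k c q)) := h1.comp (param i0 i1 k c).contDiff
    have h3 : ContDiff ℝ 1 (fun α : Form n k 1 => α ![v]) :=
      (ContinuousAlternatingMap.apply ℝ (Amb n k) ℝ ![v]).contDiff
    exact h3.comp h2
  have hcs : ∀ v : Amb n k, HasCompactSupport (fun q => β (param i0 i1 k c q) ![v]) := by
    intro v
    have h1 : HasCompactSupport (fun q => β (param i0 i1 k c q)) :=
      β.hasCompactSupport.comp_isClosedEmbedding hemb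
    exact h1.comp_left (g := fun α : Form n k 1 => α ![v]) rfl
  have hfd : ∀ (v : Amb n k) (q x : ℝ × (ℝ × ℝ)), fderiv ℝ (fun q => β (param i0 i1 k c q) ![v]) q x =
      fderiv ℝ (fun y => β y ![v]) (param i0 i1 k c q) (param i0 i1 k c x) := by
    intro v q x
    have h1 : DifferentiableAt ℝ (fun y => β y ![v]) (param i0 i1 k c q) := by
      have h1 : DifferentiableAt ℝ β (param i0 i1 k c q) :=
        β.contDiff.differentiable (by simp) _
      exact (ContinuousAlternatingMap.apply ℝ (Amb n k) ℝ ![v]).differentiableAt.comp _ h1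
    have h2 := h1.hasFDerivAt.comp q (param i0 i1 k c).hasFDerivAt
    have h3 := h2.fderiv
    change fderiv ℝ ((fun y => β y ![v]) ∘ (param i0 i1 k c)) q x = _
    rw [h3]; rfl
  have hpa : param i0 i1 k c (1, 0) = a := by
    rw [param_apply, ha]; simp
  have hpb : param i0 i1 k c (0, c) = b := by
    rw [param_apply, hb]
    ext j
    · simp [two, Pi.single_apply, mul_comm, mul_add]
    · simp
  have hint : ∀ q, vec i0 i1 k c (dTest β (param i0 i1 k c q)) =
      fderiv ℝ (fun q => β (param i0 i1 k c q) ![b]) q (1, 0) -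
      fderiv ℝ (fun q => β (param i0 i1 k c q) ![a]) q (0, c) := by
    intro q
    rw [hfd, hfd, hpa, hpb, ← dTest_apply]
    rfl
  simp only [hint]
  rw [integral_sub, half_normal (hsm b) (hcs b), half_tangent (hsm a) (hcs a) c, sub_zero]
  · congr 2
    funext p
    rw [param_apply]
    simp
  · rw [halfMeasure_eq]
    apply Integrable.integrableOn
    have hcd : Continuous fun x => fderiv ℝ (fun q => β (param i0 i1 k c q) ![b]) x (1, 0) := by
      have := (hsm b).continuous_fderiv one_ne_zero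
      fun_prop
    apply hcd.integrable_of_hasCompactSupport
    exact ((hcs b).fderiv ℝ).comp_left (g := fun L : (ℝ × (ℝ × ℝ)) →L[ℝ] ℝ => L (1, 0)) (by simp)
  · rw [halfMeasure_eq]
    apply Integrable.integrableOn
    have hcd : Continuous fun x => fderiv ℝ (fun q => β (param i0 i1 k c q) ![a]) x (0, c) := by
      have := (hsm a).continuous_fderiv one_ne_zero
      fun_prop
    apply hcd.integrable_of_hasCompactSupport
    exact ((hcs a).fderiv ℝ).comp_left (g := fun L : (ℝ × (ℝ × ℝ)) →L[ℝ] ℝ => L (0, c)) (by simp)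

variable (i0 i1)

/-- The tropical line current. -/
noncomputable def tropical (k : ℕ) : Current (⊤ : Opens (Amb n k)) 2 :=
  pieceCurrent i0 i1 k (0, -1) + pieceCurrent i0 i1 k (-1, 0) + pieceCurrent i0 i1 k (1, 1)

variable {i0 i1}

theorem tropical_cycle (h01 : i0 ≠ i1) : IsCycle (tropical i0 i1 k) := by
  intro β
  have hc1 : ((0, -1) : ℝ × ℝ) ≠ 0 := by simp
  have hc2 : ((-1, 0) : ℝ × ℝ) ≠ 0 := by simp
  have hc3 : ((1, 1) : ℝ × ℝ) ≠ 0 := by simp
  rw [tropical, add_apply, add_apply,
    pieceCurrent_cycle h01 hc1, pieceCurrent_cycle h01 hc2, pieceCurrent_cycle h01 hc3]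
  have hint : ∀ v : Amb n k, Integrable (fun p : ℝ × ℝ =>
      β (two i0 i1 (p.1 * Complex.I) (p.2 * Complex.I), 0) ![v]) := by
    intro v
    let ι : (ℝ × ℝ) →L[ℝ] Amb n k :=
      (param i0 i1 k (1, 1)).comp (ContinuousLinearMap.inr ℝ ℝ (ℝ × ℝ))
    have hι : ∀ p, ι p = (two i0 i1 (p.1 * Complex.I) (p.2 * Complex.I), 0) := by
      intro p; simp [ι, param_apply]
    have hinj : Function.Injective ι := by
      intro x y hxy
      have := param_injective (k := k) h01 hc3 hxy
      simpa using this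
    have hemb : Topology.IsClosedEmbedding ι :=
      LinearMap.isClosedEmbedding_of_injective (f := ι.toLinearMap) (LinearMap.ker_eq_bot.2 hinj)
    have h1 : HasCompactSupport (fun q => β (ι q)) :=
      β.hasCompactSupport.comp_isClosedEmbedding hemb
    have h2 := h1.comp_left (g := fun α : Form n k 1 => α ![v]) rfl
    have h3 : Continuous (fun q => β (ι q) ![v]) := by
      have : Continuous fun q => β (ι q) := by fun_prop
      exact (ContinuousAlternatingMap.apply ℝ (Amb n k) ℝ ![v]).continuous.comp this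
    have h4 := h3.integrable_of_hasCompactSupport (μ := volume) h2
    simpa only [hι] using h4
  rw [← neg_add, ← neg_add, neg_eq_zero, ← integral_add (hint _) (hint _)]
  have h3 : ∀ v w : Amb n k, Integrable (fun p : ℝ × ℝ =>
      β (two i0 i1 (p.1 * Complex.I) (p.2 * Complex.I), 0) ![v] +
      β (two i0 i1 (p.1 * Complex.I) (p.2 * Complex.I), 0) ![w]) := fun v w =>
    (hint v).add (hint w)
  rw [← integral_add (h3 _ _) (hint _)]
  apply integral_eq_zero_of_ae
  refine Filter.Eventually.of_forall fun p => ?_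
  simp only [Pi.zero_apply]
  set g := β (two i0 i1 (p.1 * Complex.I) (p.2 * Complex.I), 0) with hg
  have hadd : ∀ v w : Amb n k, g ![v] + g ![w] = g ![v + w] := by
    intro v w
    have h := g.map_update_add ![v] 0 v w
    have e : ∀ x : Amb n k, Function.update ![v] 0 x = ![x] := by
      intro x; funext i; fin_cases i; simp
    rw [e, e, e] at h
    exact h.symm
  rw [hadd, hadd]
  have : ((Complex.I • two i0 i1 ((0, -1) : ℝ × ℝ).1 ((0, -1) : ℝ × ℝ).2, 0) : Amb n k) +
      (Complex.I • two i0 i1 ((-1, 0) : ℝ × ℝ).1 ((-1, 0) : ℝ × ℝ).2, 0) +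
      (Complex.I • two i0 i1 ((1, 1) : ℝ × ℝ).1 ((1, 1) : ℝ × ℝ).2, 0) = 0 := by
    ext j
    · simp [two, Pi.single_apply]
      split_ifs <;> ring
    · simp
  rw [this]
  exact g.map_coord_zero 0 rfl

end

section

variable {E F : Type*} [NormedAddCommGroup E] [NormedSpace ℝ E] [NormedAddCommGroup F]
  [NormedSpace ℝ F] {Ω : Opens E}

theorem bounded_image {X Y : Type*} [AddCommGroup X] [Module ℝ X] [TopologicalSpace X]
    [NormedAddCommGroup Y] [NormedSpace ℝ Y] {B : Set X} (hB : Bornology.IsVonNBounded ℝ B)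
    (Λ : X →L[ℝ] Y) : ∃ C : ℝ, ∀ α ∈ B, ‖Λ α‖ ≤ C := by
  have h1 := Bornology.IsVonNBounded.image (σ := RingHom.id ℝ) hB Λ
  rw [NormedSpace.isVonNBounded_iff, isBounded_iff_forall_norm_le] at h1
  obtain ⟨C, hC⟩ := h1
  exact ⟨C, fun α hα => hC _ ⟨α, hα, rfl⟩⟩

/-- Elements of a bounded set of test functions have a uniform bound on the derivative. -/
theorem bounded_fderiv {B : Set 𝓓(Ω, F)} (hB : Bornology.IsVonNBounded ℝ B) :
    ∃ L : ℝ, 0 ≤ L ∧ ∀ α ∈ B, ∀ x, ‖fderiv ℝ α x‖ ≤ L := by
  let Λ1 : 𝓓(Ω, F) →L[ℝ] 𝓓(Ω, E →L[ℝ] F) := TestFunction.fderivCLM ℝ ⊤ ⊤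
  let Λ2 : 𝓓(Ω, E →L[ℝ] F) →L[ℝ] (E →ᵇ (E →L[ℝ] F)) :=
    (TestFunction.toBoundedContinuousFunctionCLM ℝ)
  obtain ⟨C, hC⟩ := bounded_image (Y := E →ᵇ (E →L[ℝ] F)) hB (Λ2.comp Λ1)
  refine ⟨max C 0, le_max_right _ _, fun α hα x => ?_⟩
  have h2 := hC _ hα
  have h3 : fderiv ℝ α x = Λ2 (Λ1 α) x := by
    simp [Λ1, Λ2]
  rw [h3]
  exact ((Λ2 (Λ1 α)).norm_coe_le_norm x).trans (h2.trans (le_max_left _ _))

/-- Elements of a bounded set of test functions have a common bounded support. -/
theorem bounded_support {B : Set 𝓓(Ω, F)} (hB : Bornology.IsVonNBounded ℝ B) :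
    ∃ R : ℝ, ∀ α ∈ B, ∀ x, R < ‖x‖ → α x = 0 := by
  by_contra hcon
  push Not at hcon
  choose a ha x hx hne using fun m : ℕ => hcon (m : ℝ)
  -- weights
  set c : ℕ → ℝ := fun m => (m + 1) / ‖a m (x m)‖ with hc
  -- for compactly supported functions only finitely many terms
  have hfin : ∀ α : 𝓓(Ω, F), ∃ C : ℝ, ∀ m, ‖c m • α (x m)‖ ≤ C := by
    intro α
    obtain ⟨M, hM⟩ := (α.hasCompactSupport.isCompact.isBounded).exists_norm_le
    obtain ⟨N, hN⟩ := exists_nat_gt M
    refine ⟨∑ m ∈ Finset.range N, ‖c m • α (x m)‖, fun m => ?_⟩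
    by_cases hm : m < N
    · exact Finset.single_le_sum (f := fun m => ‖c m • α (x m)‖)
        (fun _ _ => norm_nonneg _) (Finset.mem_range.2 hm)
    · have : α (x m) = 0 := by
        by_contra h
        have h1 : x m ∈ tsupport α := subset_tsupport _ h
        have h2 := hM _ h1
        have h3 := hx m
        have h4 : (N : ℝ) ≤ m := by exact_mod_cast not_lt.1 hm
        linarith
      rw [this, smul_zero, norm_zero]
      exact Finset.sum_nonneg fun _ _ => norm_nonneg _
  choose Cb hCb using hfin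
  let T : 𝓓(Ω, F) → (ℕ →ᵇ F) := fun α =>
    BoundedContinuousFunction.ofNormedAddCommGroupDiscrete (fun m => c m • α (x m)) (Cb α) (hCb α)
  let Λ : 𝓓(Ω, F) →L[ℝ] (ℕ →ᵇ F) := TestFunction.mkCLM ℝ T
    (by intro f g; ext m; simp [T])
    (by
      intro r f; ext m
      change c m • (r • f) (x m) = r • (c m • f (x m))
      rw [smul_comm]; rfl)
    (by
      intro K hK
      obtain ⟨M, hM⟩ := (K.isCompact.isBounded).exists_norm_le
      obtain ⟨N, hN⟩ := exists_nat_gt M
      let Ψ : (E →ᵇ F) →ₗ[ℝ] (ℕ →ᵇ F) :=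
        { toFun := fun g => BoundedContinuousFunction.ofNormedAddCommGroupDiscrete
            (fun m => if m < N then c m • g (x m) else 0)
            ((∑ m ∈ Finset.range N, ‖c m‖) * ‖g‖) (by
              intro m
              split_ifs with h
              · rw [norm_smul]
                apply mul_le_mul _ (g.norm_coe_le_norm _) (norm_nonneg _)
                  (Finset.sum_nonneg fun _ _ => norm_nonneg _)
                exact Finset.single_le_sum (f := fun m => ‖c m‖)
                  (fun _ _ => norm_nonneg _) (Finset.mem_range.2 h)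
              · rw [norm_zero]
                exact mul_nonneg (Finset.sum_nonneg fun _ _ => norm_nonneg _) (norm_nonneg _))
          map_add' := by
            intro f g; ext m
            simp only [BoundedContinuousFunction.coe_ofNormedAddCommGroupDiscrete,
              BoundedContinuousFunction.coe_add, Pi.add_apply]
            split_ifs <;> simp
          map_smul' := by
            intro r g; ext m
            change (if m < N then c m • (r • g) (x m) else 0) =
              r • (if m < N then c m • g (x m) else 0)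
            split_ifs
            · rw [smul_comm]; rfl
            · rw [smul_zero] }
      have hΨ : Continuous Ψ := by
        apply AddMonoidHomClass.continuous_of_bound Ψ (∑ m ∈ Finset.range N, ‖c m‖)
        intro g
        rw [BoundedContinuousFunction.norm_le (mul_nonneg
          (Finset.sum_nonneg fun _ _ => norm_nonneg _) (norm_nonneg _))]
        intro m
        change ‖(if m < N then c m • g (x m) else 0 : F)‖ ≤ _
        split_ifs with h
        · rw [norm_smul]
          apply mul_le_mul _ (g.norm_coe_le_norm _) (norm_nonneg _)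
            (Finset.sum_nonneg fun _ _ => norm_nonneg _)
          exact Finset.single_le_sum (f := fun m => ‖c m‖)
            (fun _ _ => norm_nonneg _) (Finset.mem_range.2 h)
        · rw [norm_zero]
          exact mul_nonneg (Finset.sum_nonneg fun _ _ => norm_nonneg _) (norm_nonneg _)
      have hcomp : (T ∘ TestFunction.ofSupportedIn hK) = fun f =>
          Ψ (ContDiffMapSupportedIn.toBoundedContinuousFunctionCLM ℝ f) := by
        funext f
        ext m
        change c m • f (x m) = if m < N then c m • f (x m) else 0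
        split_ifs with h
        · rfl
        · have : f (x m) = 0 := by
            by_contra h'
            have h1 : x m ∈ (K : Set E) := by
              by_contra h2
              exact h' (f.zero_on_compl h2)
            have h2 := hM _ h1
            have h3 := hx m
            have h4 : (N : ℝ) ≤ m := by exact_mod_cast not_lt.1 h
            linarith
          rw [this, smul_zero]
      rw [hcomp]
      exact hΨ.comp (ContinuousLinearMap.continuous _))
  obtain ⟨C, hC⟩ := bounded_image hB Λ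
  obtain ⟨m, hm⟩ := exists_nat_gt C
  have h2 := hC _ (ha m)
  have h3 : ‖(Λ (a m)) m‖ ≤ ‖Λ (a m)‖ := (Λ (a m)).norm_coe_le_norm m
  have h4 : (Λ (a m)) m = c m • a m (x m) := rfl
  have h5 : ‖c m • a m (x m)‖ = m + 1 := by
    rw [norm_smul, hc]
    simp only
    have hpos : 0 < ‖a m (x m)‖ := norm_pos_iff.2 (hne m)
    rw [Real.norm_of_nonneg (by positivity), div_mul_cancel₀ _ hpos.ne']
  rw [h4, h5] at h3
  linarith

end

section

variable {n k : ℕ} {i0 i1 : Fin n}

/-- The cone of finite nonnegative combinations of Dirac currents. -/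
noncomputable abbrev diracCone (n k : ℕ) : Submodule ℝ≥0 (Current (⊤ : Opens (Amb n k)) 2) :=
  Submodule.span ℝ≥0 {c | ∃ y : Amb n k, ∃ w ∈ structureCone (Fin n → ℂ) (Fin k → ℝ) y, c = dirac y w}

theorem vec_mem (c : ℝ × ℝ) (y : Amb n k) :
    vec i0 i1 k c ∈ structureCone (Fin n → ℂ) (Fin k → ℝ) y :=
  subset_closure (Submodule.subset_span ⟨two i0 i1 c.1 c.2, rfl⟩)

theorem lip_bound {c : ℝ × ℝ} {α : 𝓓((⊤ : Opens (Amb n k)), Form n k 2)} {L : ℝ} (hL0 : 0 ≤ L)
    (hL : ∀ x, ‖fderiv ℝ α x‖ ≤ L) {δ : ℝ} {q y : ℝ × (ℝ × ℝ)} (hqy : ‖q - y‖ ≤ δ) :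
    |vec i0 i1 k c (α (param i0 i1 k c q)) - vec i0 i1 k c (α (param i0 i1 k c y))| ≤
      ‖vec i0 i1 k c‖ * (L * (‖param i0 i1 k c‖ * δ)) := by
  have hδ : 0 ≤ δ := (norm_nonneg _).trans hqy
  rw [← map_sub, ← Real.norm_eq_abs]
  refine ((vec i0 i1 k c).le_opNorm _).trans ?_
  apply mul_le_mul_of_nonneg_left _ (norm_nonneg _)
  have h1 : ‖α (param i0 i1 k c q) - α (param i0 i1 k c y)‖ ≤
      L * ‖param i0 i1 k c q - param i0 i1 k c y‖ := by
    apply (convex_univ (𝕜 := ℝ) (E := Amb n k)).norm_image_sub_le_of_norm_fderiv_le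
      (fun x _ => α.contDiff.differentiable (by simp) x) (fun x _ => hL x) (mem_univ _) (mem_univ _)
  refine h1.trans ?_
  apply mul_le_mul_of_nonneg_left _ hL0
  rw [← map_sub]
  exact ((param i0 i1 k c).le_opNorm _).trans (mul_le_mul_of_nonneg_left hqy (norm_nonneg _))

theorem integrable_piece (c : ℝ × ℝ) (α : 𝓓((⊤ : Opens (Amb n k)), Form n k 2))
    {A : Set (ℝ × (ℝ × ℝ))} (hA : halfMeasure A ≠ ⊤) :
    IntegrableOn (fun q => vec i0 i1 k c (α (param i0 i1 k c q))) A halfMeasure := by
  obtain ⟨C, hC⟩ := α.hasCompactSupport.exists_bound_of_continuous α.continuous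
  have hcont : Continuous fun q => vec i0 i1 k c (α (param i0 i1 k c q)) := by fun_prop
  apply MeasureTheory.Measure.integrableOn_of_bounded (M := ‖vec i0 i1 k c‖ * C) hA
    hcont.aestronglyMeasurable
  refine Filter.Eventually.of_forall fun q => ?_
  exact ((vec i0 i1 k c).le_opNorm _).trans (mul_le_mul_of_nonneg_left (hC _) (norm_nonneg _))

theorem approx_step (c : ℝ × ℝ) {B : Set 𝓓((⊤ : Opens (Amb n k)), Form n k 2)} {L : ℝ}
    (hL0 : 0 ≤ L) (hL : ∀ α ∈ B, ∀ x, ‖fderiv ℝ α x‖ ≤ L) {δ : ℝ} (t : Finset (ℝ × (ℝ × ℝ))) :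
    ∀ A : Set (ℝ × (ℝ × ℝ)), MeasurableSet A → halfMeasure A ≠ ⊤ →
      A ⊆ ⋃ y ∈ t, Metric.ball y δ →
      ∃ S ∈ diracCone n k, ∀ α ∈ B,
        |S α - ∫ q in A, vec i0 i1 k c (α (param i0 i1 k c q)) ∂halfMeasure| ≤
          ‖vec i0 i1 k c‖ * (L * (‖param i0 i1 k c‖ * δ)) * (halfMeasure A).toReal := by
  classical
  induction t using Finset.induction_on with
  | empty =>
    intro A hA hAfin hsub
    have : A = ∅ := by simpa using hsub
    subst this
    exact ⟨0, zero_mem _, fun α _ => by simp⟩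
  | insert y t hy ih =>
    intro A hA hAfin hsub
    set A1 : Set (ℝ × (ℝ × ℝ)) := A ∩ Metric.ball y δ with hA1
    set A2 : Set (ℝ × (ℝ × ℝ)) := A \ Metric.ball y δ with hA2
    have hm1 : MeasurableSet A1 := hA.inter measurableSet_ball
    have hm2 : MeasurableSet A2 := hA.diff measurableSet_ball
    have hfin1 : halfMeasure A1 ≠ ⊤ := ne_top_of_le_ne_top hAfin (measure_mono inter_subset_left)
    have hfin2 : halfMeasure A2 ≠ ⊤ := ne_top_of_le_ne_top hAfin (measure_mono sdiff_subset)
    have hdisj : Disjoint A1 A2 := disjoint_sdiff_inter.symm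
    have hunion : A1 ∪ A2 = A := inter_union_sdiff A _
    have hsub2 : A2 ⊆ ⋃ y ∈ t, Metric.ball y δ := by
      intro q hq
      have := hsub hq.1
      simp only [Finset.mem_insert, iUnion_iUnion_eq_or_left, mem_union] at this
      rcases this with h | h
      · exact absurd h hq.2
      · exact h
    obtain ⟨S, hS, hSB⟩ := ih A2 hm2 hfin2 hsub2
    refine ⟨S + (halfMeasure A1).toNNReal • dirac (param i0 i1 k c y) (vec i0 i1 k c),
      Submodule.add_mem _ hS (Submodule.smul_mem _ _
        (Submodule.subset_span ⟨_, _, vec_mem c _, rfl⟩)), fun α hα => ?_⟩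
    have hint1 := integrable_piece (i0 := i0) (i1 := i1) c α hfin1
    have hint2 := integrable_piece (i0 := i0) (i1 := i1) c α hfin2
    have hsplit : ∫ q in A, vec i0 i1 k c (α (param i0 i1 k c q)) ∂halfMeasure =
        (∫ q in A1, vec i0 i1 k c (α (param i0 i1 k c q)) ∂halfMeasure) +
        ∫ q in A2, vec i0 i1 k c (α (param i0 i1 k c q)) ∂halfMeasure := by
      rw [← setIntegral_union hdisj hm2 hint1 hint2, hunion]
    have hmeas : (halfMeasure A).toReal = (halfMeasure A1).toReal + (halfMeasure A2).toReal := by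
      rw [← ENNReal.toReal_add hfin1 hfin2, ← measure_union hdisj hm2, hunion]
    have hval : ((halfMeasure A1).toNNReal • dirac (param i0 i1 k c y) (vec i0 i1 k c)) α =
        (halfMeasure A1).toReal * vec i0 i1 k c (α (param i0 i1 k c y)) := rfl
    have hone : |(halfMeasure A1).toReal * vec i0 i1 k c (α (param i0 i1 k c y)) -
        ∫ q in A1, vec i0 i1 k c (α (param i0 i1 k c q)) ∂halfMeasure| ≤
        ‖vec i0 i1 k c‖ * (L * (‖param i0 i1 k c‖ * δ)) * (halfMeasure A1).toReal := by
      have h1 : (halfMeasure A1).toReal * vec i0 i1 k c (α (param i0 i1 k c y)) =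
          ∫ q in A1, vec i0 i1 k c (α (param i0 i1 k c y)) ∂halfMeasure := by
        rw [setIntegral_const]; rfl
      have hconst : IntegrableOn (fun _ : ℝ × (ℝ × ℝ) => vec i0 i1 k c (α (param i0 i1 k c y))) A1
          halfMeasure := integrableOn_const hfin1
      rw [h1, ← integral_sub hconst hint1, ← Real.norm_eq_abs]
      refine norm_setIntegral_le_of_norm_le_const (hfin1.lt_top) ?_
      intro q hq
      rw [Real.norm_eq_abs, abs_sub_comm]
      apply lip_bound hL0 (hL α hα)
      have := hq.2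
      rw [Metric.mem_ball, dist_eq_norm] at this
      exact this.le
    have htwo := hSB α hα
    rw [add_apply, hval, hsplit, hmeas]
    have : S α + (halfMeasure A1).toReal * vec i0 i1 k c (α (param i0 i1 k c y)) -
        ((∫ q in A1, vec i0 i1 k c (α (param i0 i1 k c q)) ∂halfMeasure) +
        ∫ q in A2, vec i0 i1 k c (α (param i0 i1 k c q)) ∂halfMeasure) =
        (S α - ∫ q in A2, vec i0 i1 k c (α (param i0 i1 k c q)) ∂halfMeasure) +
        ((halfMeasure A1).toReal * vec i0 i1 k c (α (param i0 i1 k c y)) -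
        ∫ q in A1, vec i0 i1 k c (α (param i0 i1 k c q)) ∂halfMeasure) := by ring
    rw [this]
    refine (abs_add_le _ _).trans ?_
    linarith

theorem pieceCurrent_mem (h01 : i0 ≠ i1) {c : ℝ × ℝ} (hc : c ≠ 0) :
    pieceCurrent i0 i1 k c ∈ CCurrents (structureCone (Fin n → ℂ) (Fin k → ℝ)) := by
  rw [CCurrents, closedConeOfCurrents, mem_closure_iff_nhds_zero]
  intro N hN
  obtain ⟨⟨B, V⟩, ⟨hB, hV⟩, hBV⟩ := (ContinuousLinearMap.hasBasis_nhds_zero).mem_iff.1 hN
  obtain ⟨ε, hε, hεV⟩ := Metric.mem_nhds_iff.1 hV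
  obtain ⟨L, hL0, hL⟩ := bounded_fderiv hB
  obtain ⟨R, hR⟩ := bounded_support hB
  obtain ⟨κ, hκ0, hκ⟩ := (param i0 i1 k c).toLinearMap.exists_antilipschitzWith
    (LinearMap.ker_eq_bot.2 (param_injective h01 hc))
  have hκ' : ∀ q, ‖q‖ ≤ κ * ‖param i0 i1 k c q‖ := by
    intro q
    have := hκ.le_mul_dist q 0
    simpa using this
  set K : Set (ℝ × (ℝ × ℝ)) := Metric.closedBall 0 (κ * R) with hK
  have hKc : IsCompact K := isCompact_closedBall _ _
  have hKfin : halfMeasure K ≠ ⊤ := by
    rw [halfMeasure_eq]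
    exact ((Measure.restrict_apply_le _ _).trans_lt hKc.measure_lt_top).ne
  have hout : ∀ α ∈ B, ∀ q, q ∉ K → vec i0 i1 k c (α (param i0 i1 k c q)) = 0 := by
    intro α hα q hq
    have h1 : κ * R < ‖q‖ := by
      simpa [K] using hq
    have h2 : R < ‖param i0 i1 k c q‖ := by
      have h3 := h1.trans_le (hκ' q)
      exact lt_of_mul_lt_mul_left h3 κ.2
    rw [hR α hα _ h2, map_zero]
  set C : ℝ := ‖vec i0 i1 k c‖ * (L * ‖param i0 i1 k c‖) * (halfMeasure K).toReal with hC
  have hC0 : 0 ≤ C := by positivity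
  obtain ⟨δ, hδ, hδC⟩ : ∃ δ : ℝ, 0 < δ ∧ C * δ < ε := by
    refine ⟨ε / (C + 1), by positivity, ?_⟩
    rw [mul_div_assoc', div_lt_iff₀ (by positivity)]
    nlinarith
  obtain ⟨t, -, htfin, htcov⟩ := hKc.finite_cover_balls hδ
  obtain ⟨S, hS, hSB⟩ := approx_step (i0 := i0) (i1 := i1) c hL0 hL htfin.toFinset K
    hKc.measurableSet hKfin (by simpa using htcov)
  refine ⟨S, hS, hBV ?_⟩
  intro α hα
  apply hεV
  rw [mem_ball_zero_iff, Real.norm_eq_abs]
  have h1 := hSB α hα
  have h2 : ∫ q in K, vec i0 i1 k c (α (param i0 i1 k c q)) ∂halfMeasure =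
      pieceCurrent i0 i1 k c α := by
    rw [pieceCurrent_apply h01 hc]
    exact setIntegral_eq_integral_of_forall_compl_eq_zero (hout α hα)
  rw [h2] at h1
  refine lt_of_le_of_lt h1 ?_
  refine lt_of_le_of_lt (le_of_eq ?_) hδC
  rw [hC]; ring

theorem tropical_mem (h01 : i0 ≠ i1) : tropical i0 i1 k ∈ CCurrents (structureCone (Fin n → ℂ) (Fin k → ℝ)) := by
  have hc1 : ((0, -1) : ℝ × ℝ) ≠ 0 := by simp
  have hc2 : ((-1, 0) : ℝ × ℝ) ≠ 0 := by simp
  have hc3 : ((1, 1) : ℝ × ℝ) ≠ 0 := by simp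
  have h1 := pieceCurrent_mem (k := k) h01 hc1
  have h2 := pieceCurrent_mem (k := k) h01 hc2
  have h3 := pieceCurrent_mem (k := k) h01 hc3
  exact (diracCone n k).topologicalClosure.add_mem
    ((diracCone n k).topologicalClosure.add_mem h1 h2) h3

end

section

variable {n k : ℕ} {i0 i1 : Fin n}

theorem vec_kahler_pos (h01 : i0 ≠ i1) {c : ℝ × ℝ} (hc : c ≠ 0) :
    0 < vec i0 i1 k c (kahler n k) := by
  change 0 < kahler n k ![(two i0 i1 c.1 c.2, 0), (Complex.I • two i0 i1 c.1 c.2, 0)]
  apply kahler_J_pos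
  intro h
  apply hc
  have h2 := congrFun h i0
  have h3 := congrFun h i1
  simp only [two, Pi.add_apply, Pi.single_eq_same, Pi.single_eq_of_ne h01, add_zero,
    Pi.zero_apply, Pi.single_eq_of_ne h01.symm, zero_add] at h2 h3
  exact Prod.ext (by exact_mod_cast h2) (by exact_mod_cast h3)

theorem pieceCurrent_kform {U : Opens (Amb n k)} (h01 : i0 ≠ i1) {c : ℝ × ℝ} (hc : c ≠ 0)
    (χ : 𝓓(U, ℝ)) : pieceCurrent i0 i1 k c (extendByZero (kform χ)) =
      ∫ q, χ (param i0 i1 k c q) * vec i0 i1 k c (kahler n k) ∂halfMeasure := by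
  rw [pieceCurrent_apply h01 hc]
  apply integral_congr_ae
  refine Filter.Eventually.of_forall fun q => ?_
  change vec i0 i1 k c (kform χ (param i0 i1 k c q)) = _
  rw [kform_apply, map_smul, smul_eq_mul]

theorem pieceCurrent_nonneg {U : Opens (Amb n k)} (h01 : i0 ≠ i1) {c : ℝ × ℝ} (hc : c ≠ 0)
    {χ : 𝓓(U, ℝ)} (hχ : ∀ y, 0 ≤ χ y) : 0 ≤ pieceCurrent i0 i1 k c (extendByZero (kform χ)) := by
  rw [pieceCurrent_kform h01 hc]
  exact integral_nonneg fun q => mul_nonneg (hχ _) (vec_kahler_pos h01 hc).le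

theorem pieceCurrent_pos {U : Opens (Amb n k)} (h01 : i0 ≠ i1) {c : ℝ × ℝ} (hc : c ≠ 0)
    {χ : 𝓓(U, ℝ)} (hχ : ∀ y, 0 ≤ χ y) (h0 : 0 < χ 0) :
    0 < pieceCurrent i0 i1 k c (extendByZero (kform χ)) := by
  rw [pieceCurrent_kform h01 hc]
  have hemb : Topology.IsClosedEmbedding (param i0 i1 k c) :=
    LinearMap.isClosedEmbedding_of_injective (f := (param i0 i1 k c).toLinearMap)
      (LinearMap.ker_eq_bot.2 (param_injective h01 hc))
  have hcont : Continuous fun q => χ (param i0 i1 k c q) * vec i0 i1 k c (kahler n k) := by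
    fun_prop
  have hcs : HasCompactSupport fun q => χ (param i0 i1 k c q) * vec i0 i1 k c (kahler n k) := by
    have h1 : HasCompactSupport (fun q => χ (param i0 i1 k c q)) :=
      χ.hasCompactSupport.comp_isClosedEmbedding hemb
    exact h1.mul_right
  have hint : Integrable (fun q => χ (param i0 i1 k c q) * vec i0 i1 k c (kahler n k))
      halfMeasure := by
    rw [halfMeasure_eq]
    exact (hcont.integrable_of_hasCompactSupport hcs).integrableOn
  rw [integral_pos_iff_support_of_nonneg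
    (fun q => mul_nonneg (hχ _) (vec_kahler_pos h01 hc).le) hint]
  have hopen : IsOpen (Function.support
      (fun q => χ (param i0 i1 k c q) * vec i0 i1 k c (kahler n k))) := hcont.isOpen_support
  rw [halfMeasure_eq, Measure.restrict_apply hopen.measurableSet]
  have hopen2 : IsOpen (Ioi (0 : ℝ) ×ˢ (univ : Set (ℝ × ℝ))) := isOpen_Ioi.prod isOpen_univ
  refine (hopen.inter hopen2).measure_pos volume ?_
  have hmem : (0 : ℝ × (ℝ × ℝ)) ∈ Function.support
      (fun q => χ (param i0 i1 k c q) * vec i0 i1 k c (kahler n k)) := by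
    simp only [Function.mem_support, map_zero]
    exact mul_ne_zero h0.ne' (vec_kahler_pos h01 hc).ne'
  have ht : Tendsto (fun s : ℝ => ((s, 0) : ℝ × (ℝ × ℝ))) (𝓝[>] 0) (𝓝 0) := by
    have : Continuous fun s : ℝ => ((s, 0) : ℝ × (ℝ × ℝ)) := by fun_prop
    exact (this.tendsto' 0 0 rfl).mono_left nhdsWithin_le_nhds
  have h1 := ht.eventually (hopen.mem_nhds hmem)
  obtain ⟨s, hs1, hs2⟩ := (h1.and self_mem_nhdsWithin).exists
  exact ⟨(s, 0), hs1, hs2, mem_univ _⟩

theorem pieceCurrent_zero {U : Opens (Amb n k)} (h01 : i0 ≠ i1) {c : ℝ × ℝ} (hc : c ≠ 0)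
    {χ : 𝓓(U, ℝ)} (hχ : ∀ q : ℝ × (ℝ × ℝ), 0 < q.1 → χ (param i0 i1 k c q) = 0) :
    pieceCurrent i0 i1 k c (extendByZero (kform χ)) = 0 := by
  rw [pieceCurrent_kform h01 hc, halfMeasure_eq]
  apply setIntegral_eq_zero_of_forall_eq_zero
  intro q hq
  rw [hχ q hq.1, zero_mul]

theorem param_suppSet (h01 : i0 ≠ i1) {c : ℝ × ℝ} (q : ℝ × (ℝ × ℝ)) (hq : 0 < q.1)
    (hc : c = (0, -1) ∨ c = (-1, 0) ∨ c = (1, 1)) : param i0 i1 k c q ∈ suppSet n k i0 i1 := by
  rw [param_apply]
  refine ⟨rfl, ?_, ?_⟩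
  · intro i hi0 hi1
    simp [two, hi0, hi1]
  · have e0 : (two i0 i1 (q.1 * c.1 + q.2.1 * Complex.I) (q.1 * c.2 + q.2.2 * Complex.I) i0).re =
        q.1 * c.1 := by simp [two, h01]
    have e1 : (two i0 i1 (q.1 * c.1 + q.2.1 * Complex.I) (q.1 * c.2 + q.2.2 * Complex.I) i1).re =
        q.1 * c.2 := by simp [two, h01.symm]
    simp only [e0, e1]
    rcases hc with rfl | rfl | rfl
    · left; constructor
      · simp
      · simp [hq.le]
    · right; left; constructor
      · simp
      · simp [hq.le]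
    · right; right; constructor
      · simp
      · simp [hq.le]

theorem isClosed_suppSet : IsClosed (suppSet n k i0 i1) := by
  have hc : ∀ i : Fin n, Continuous fun y : Amb n k => (y.1 i).re := fun i => by fun_prop
  have h1 : IsClosed {y : Amb n k | y.2 = 0} := isClosed_eq (by fun_prop) continuous_const
  have h2 : IsClosed {y : Amb n k | ∀ i, i ≠ i0 → i ≠ i1 → y.1 i = 0} := by
    simp only [ofPred_forall]
    refine isClosed_iInter fun i => isClosed_iInter fun _ => isClosed_iInter fun _ => ?_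
    exact isClosed_eq (by fun_prop) continuous_const
  have h3 : IsClosed {y : Amb n k | (y.1 i0).re = 0 ∧ (y.1 i1).re ≤ 0} :=
    (isClosed_eq (hc i0) continuous_const).inter (isClosed_le (hc i1) continuous_const)
  have h4 : IsClosed {y : Amb n k | (y.1 i1).re = 0 ∧ (y.1 i0).re ≤ 0} :=
    (isClosed_eq (hc i1) continuous_const).inter (isClosed_le (hc i0) continuous_const)
  have h5 : IsClosed {y : Amb n k | (y.1 i0).re = (y.1 i1).re ∧ 0 ≤ (y.1 i0).re} :=
    (isClosed_eq (hc i0) (hc i1)).inter (isClosed_le continuous_const (hc i0))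
  exact h1.inter (h2.inter (h3.union (h4.union h5)))

/-- Smooth nonnegative function, positive exactly on a given open set with closure in `U`. -/
theorem exists_test {U : Opens (Amb n k)} {V : Set (Amb n k)} (hV : IsOpen V) {K : Set (Amb n k)}
    (hK : IsCompact K) (hVK : V ⊆ K) (hKU : K ⊆ U) :
    ∃ χ : 𝓓(U, ℝ), (∀ y, 0 ≤ χ y) ∧ ∀ y, χ y ≠ 0 ↔ y ∈ V := by
  obtain ⟨f, hf1, hf2, hf3⟩ := hV.exists_contDiff_support_eq (n := ⊤)
  have hts : tsupport f ⊆ K := by
    rw [tsupport, hf1]
    exact closure_minimal hVK hK.isClosed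
  refine ⟨⟨f, hf2, hK.of_isClosed_subset (isClosed_tsupport f) hts, hts.trans hKU⟩, ?_, ?_⟩
  · intro y
    exact (hf3 ⟨y, rfl⟩).1
  · intro y
    change f y ≠ 0 ↔ _
    rw [← hf1]; rfl

end

/-- The affirmative answer fails for `ℂⁿ × ℝᵏ` foliated by the `ℂⁿ × {t}`. -/
theorem main (n k : ℕ) (hn : 2 ≤ n) :
    ¬ CyclesAreLocalSuperpositions (Fin n → ℂ) (Fin k → ℝ) := by
  intro hyes
  set i0 : Fin n := ⟨0, by omega⟩ with hi0
  set i1 : Fin n := ⟨1, by omega⟩ with hi1
  have h01 : i0 ≠ i1 := by simp [hi0, hi1]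
  have hc1 : ((0, -1) : ℝ × ℝ) ≠ 0 := by simp
  have hc2 : ((-1, 0) : ℝ × ℝ) ≠ 0 := by simp
  have hc3 : ((1, 1) : ℝ × ℝ) ≠ 0 := by simp
  obtain ⟨U, hU, m, ν, hrep⟩ := hyes (tropical i0 i1 k) (tropical_mem h01) (tropical_cycle h01) 0
  obtain ⟨R', hR', hball⟩ := Metric.isOpen_iff.1 U.isOpen 0 hU
  set R := R' / 2 with hR
  have hRpos : 0 < R := by positivity
  have hcb : Metric.closedBall (0 : Amb n k) R ⊆ U :=
    (Metric.closedBall_subset_ball (by linarith)).trans hball
  obtain ⟨χ, hχ0, hχ⟩ := exists_test (U := U)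
    (V := Metric.ball (0 : Amb n k) R ∩ (suppSet n k i0 i1)ᶜ)
    (Metric.isOpen_ball.inter isClosed_suppSet.isOpen_compl) (isCompact_closedBall 0 R)
    (inter_subset_left.trans Metric.ball_subset_closedBall) hcb
  obtain ⟨ψ, hψ0, hψ⟩ := exists_test (U := U) (V := Metric.ball (0 : Amb n k) (R / 4))
    Metric.isOpen_ball (isCompact_closedBall 0 R)
    (Metric.ball_subset_closedBall.trans (Metric.closedBall_subset_closedBall (by linarith))) hcb
  -- the current kills χ Ω
  have hz : tropical i0 i1 k (extendByZero (kform χ)) = 0 := by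
    have hp : ∀ c : ℝ × ℝ, (c = (0, -1) ∨ c = (-1, 0) ∨ c = (1, 1)) →
        ∀ q : ℝ × (ℝ × ℝ), 0 < q.1 → χ (param i0 i1 k c q) = 0 := by
      intro c hc q hq
      by_contra h
      exact ((hχ _).1 h).2 (param_suppSet h01 q hq hc)
    rw [tropical, add_apply, add_apply, pieceCurrent_zero h01 hc1 (hp _ (Or.inl rfl)),
      pieceCurrent_zero h01 hc2 (hp _ (Or.inr (Or.inl rfl))),
      pieceCurrent_zero h01 hc3 (hp _ (Or.inr (Or.inr rfl)))]
    simp
  have hpos : 0 < tropical i0 i1 k (extendByZero (kform ψ)) := by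
    have hψ00 : 0 < ψ 0 := lt_of_le_of_ne (hψ0 0)
      (Ne.symm ((hψ 0).2 (Metric.mem_ball_self (by positivity))))
    have p1 := pieceCurrent_pos h01 hc1 hψ0 hψ00
    have p2 := pieceCurrent_pos h01 hc2 hψ0 hψ00
    have p3 := pieceCurrent_pos h01 hc3 hψ0 hψ00
    rw [tropical, add_apply, add_apply]
    linarith
  obtain ⟨hint, heq⟩ := hrep (kform χ)
  obtain ⟨hint', heq'⟩ := hrep (kform ψ)
  rw [hz] at heq
  have hnn : ∀ T : PU U, 0 ≤ (T : Current U 2) (kform χ) := by
    rintro ⟨T, C, hC⟩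
    exact PHCurve.integral_nonneg hC hχ0
  have hae := (integral_eq_zero_iff_of_nonneg hnn hint).1 heq.symm
  have hae' : (fun T : PU U => (T : Current U 2) (kform ψ)) =ᵐ[ν] 0 := by
    filter_upwards [hae] with T hT
    obtain ⟨T, C, hC⟩ := T
    have hav := PHCurve.avoid_of_eq_zero hC hχ0 hT
    have hfar := C.far h01 (R := R) (Metric.ball_subset_closedBall.trans hcb) (by
      intro p hp
      by_contra hcon
      exact ((hχ _).2 ⟨by rw [mem_ball_zero_iff]; exact hp, hcon⟩) (hav p))
    apply PHCurve.eq_zero_of_avoid hC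
    intro p
    by_contra h
    have h1 := (hψ _).1 h
    rw [mem_ball_zero_iff] at h1
    exact absurd h1 (not_lt.2 (hfar p))
  rw [integral_congr_ae hae'] at heq'
  simp only [Pi.zero_apply, integral_zero] at heq'
  exact hpos.ne' heq'

end Pool.Agent.H69.Ghys
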